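import Pool.Agent.SYB.Ext

/-! # Caps at exposed points of a local maximiser -/

set_option autoImplicit false

namespace Pool.Agent.SYX

open MeasureTheory Set Pool.Agent.SYL Pool.Agent.SYB

/-- caps at an exposed point are small -/
theorem Cap_small {d : ℕ} {D : Set (Fin d → ℝ)} (hD : IsCompact D) {x : Fin d → ℝ}
    (f : (Fin d → ℝ) →L[ℝ] ℝ) (hf : ∀ y ∈ D, y ≠ x → f x < f y) {s : ℝ} (hs : 0 < s) :
    ∃ δ : ℝ, 0 < δ ∧ ∀ y ∈ D, f y < f x + δ → dist y x < s := by
  rcases (D \ Metric.ball x s).eq_empty_or_nonempty with h0 | h0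
  · refine ⟨1, one_pos, fun y hy _ => ?_⟩
    by_contra hcon
    have : y ∈ D \ Metric.ball x s := ⟨hy, fun h => hcon (Metric.mem_ball.1 h)⟩
    rw [h0] at this
    exact this
  · obtain ⟨m, hm, hmin⟩ := (hD.diff Metric.isOpen_ball).exists_isMinOn h0 f.continuous.continuousOn
    have hmx : m ≠ x := by
      rintro rfl
      exact hm.2 (Metric.mem_ball_self hs)
    refine ⟨f m - f x, sub_pos.2 (hf m hm.1 hmx), fun y hy hyf => ?_⟩
    by_contra hcon
    have h1 : f m ≤ f y := hmin (show y ∈ D \ Metric.ball x s from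
      ⟨hy, fun h => hcon (Metric.mem_ball.1 h)⟩)
    linarith

/-- the volume of caps at an exposed point is of smaller order than their depth -/
theorem Cap_vol {d : ℕ} (hd : 2 ≤ d) {D : Set (Fin d → ℝ)} (hD : IsBody D) {x z0 : Fin d → ℝ}
    (hx : x ∈ D) (hz : z0 ∈ D) (hzx : z0 ≠ x)
    (f : (Fin d → ℝ) →L[ℝ] ℝ) (hf : ∀ y ∈ D, y ≠ x → f x < f y) {η : ℝ} (hη : 0 < η) :
    ∃ δ0 : ℝ, 0 < δ0 ∧ ∀ δ : ℝ, 0 < δ → δ < δ0 → vol {y | y ∈ D ∧ f y < f x + δ} ≤ η * δ := by
  set F := f z0 - f x with hF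
  have hF0 : 0 < F := sub_pos.2 (hf z0 hz hzx)
  have hd0 : (0 : ℝ) < d := by
    have : 0 < d := by omega
    exact_mod_cast this
  obtain ⟨s, hs, hsb⟩ := Geo_thin hd z0 x (η := η * F / d) (by positivity)
  obtain ⟨δ1, hδ1, hδ1b⟩ := Cap_small hD.2.1 f hf hs
  refine ⟨min δ1 F, lt_min hδ1 hF0, fun δ hδ hδ2 => ?_⟩
  set S := D ∩ Metric.cthickening s (segment ℝ z0 x) with hS
  have hSm : MeasurableSet S := hD.2.1.measurableSet.inter Metric.isClosed_cthickening.measurableSet
  have hSf : volume S ≠ ⊤ := ((measure_mono inter_subset_left).trans_lt hD.2.1.measure_lt_top).ne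
  have hSv : vol S < η * F / d :=
    lt_of_le_of_lt (ENNReal.toReal_mono (Ext_cfin _ _ _) (measure_mono inter_subset_right))
      (hsb s hs le_rfl)
  set l := δ / F with hl
  have hl0 : 0 < l := by positivity
  have hl1 : l < 1 := by
    rw [hl, div_lt_one hF0]
    exact hδ2.trans_le (min_le_right _ _)
  have hlF : l * F = δ := by
    rw [hl]
    field_simp
  have hshell := Geo_shell hSm hSf z0 (fun y hy t ht0 ht1 =>
    ⟨hD.1 hz hy.1 (by linarith) ht0 (by ring), Geo_star z0 x y ht0 ht1 hy.2⟩) hl0.le hl1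
  have hsub : {y | y ∈ D ∧ f y < f x + δ} ⊆ S \ ((fun y => l • z0 + (1 - l) • y) '' S) := by
    rintro y ⟨hyD, hyf⟩
    refine ⟨⟨hyD, Ext_seg (hδ1b y hyD (hyf.trans_le ?_)).le⟩, ?_⟩
    · have := hδ2.trans_le (min_le_left δ1 F)
      linarith
    · rintro ⟨q, hq, rfl⟩
      have hq1 : f x ≤ f q := by
        by_cases h : q = x
        · rw [h]
        · exact (hf q hq.1 h).le
      simp only [map_add, map_smul, smul_eq_mul] at hyf
      have h1 : (1 - l) * f x ≤ (1 - l) * f q := mul_le_mul_of_nonneg_left hq1 (by linarith)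
      have h2 : l * f z0 = l * F + l * f x := by
        rw [hF]
        ring
      linarith
  have h1 : vol {y | y ∈ D ∧ f y < f x + δ} ≤ d * l * vol S := by
    refine le_trans (ENNReal.toReal_mono ?_ (measure_mono hsub)) hshell
    exact ((measure_mono sdiff_subset).trans_lt (lt_top_iff_ne_top.2 hSf)).ne
  have h2 : d * l * vol S ≤ d * l * (η * F / d) := mul_le_mul_of_nonneg_left hSv.le (by positivity)
  have h3 : d * l * (η * F / d) = η * δ := by
    rw [← hlF]
    field_simp
  linarith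

/-- contraction towards a point: measurability and volume -/
theorem Cap_img {d : ℕ} {S : Set (Fin d → ℝ)} (hS : MeasurableSet S) (a : Fin d → ℝ) {l : ℝ}
    (h1 : l < 1) : MeasurableSet ((fun y => l • a + (1 - l) • y) '' S) ∧
      volume ((fun y => l • a + (1 - l) • y) '' S) = ENNReal.ofReal ((1 - l) ^ d) * volume S := by
  set M : Set (Fin d → ℝ) := (fun y => l • a + (1 - l) • y) '' S with hM
  have hl : 0 < 1 - l := by linarith
  refine ⟨?_, ?_⟩
  · have e1 : M = (fun y => (1 - l)⁻¹ • (y - l • a)) ⁻¹' S := by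
      ext y
      constructor
      · rintro ⟨z, hz, rfl⟩
        simp only [mem_preimage, add_sub_cancel_left]
        rw [smul_smul, inv_mul_cancel₀ hl.ne', one_smul]
        exact hz
      · intro hy
        refine ⟨_, hy, ?_⟩
        simp only
        rw [smul_smul, mul_inv_cancel₀ hl.ne', one_smul]
        abel
    rw [e1]
    exact (by fun_prop : Measurable fun y : Fin d → ℝ => (1 - l)⁻¹ • (y - l • a)) hS
  · have e1 : M = (fun y => l • a + y) '' ((fun y => (1 - l) • y) '' S) := by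
      rw [hM, image_image]
    rw [e1, image_add_left, measure_preimage_add, image_smul, Measure.addHaar_smul,
      Module.finrank_fin_fun, abs_of_nonneg (by positivity)]

/-- mean value of a nonnegative midpoint concave function on a convex set -/
theorem Cap_mean {d : ℕ} {A : Set (Fin d → ℝ)} (hA : Convex ℝ A) (hm : MeasurableSet A)
    (hfin : volume A ≠ ⊤) {h : (Fin d → ℝ) → ℝ} (hint : IntegrableOn h A)
    (hconc : ∀ a ∈ A, ∀ b ∈ A, h a / 2 + h b / 2 ≤ h ((1 / 2 : ℝ) • a + (1 - 1 / 2 : ℝ) • b))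
    (h0 : ∀ a ∈ A, 0 ≤ h a) {y : Fin d → ℝ} (hy : y ∈ A) :
    (1 / 2 : ℝ) ^ (d + 1) * h y * vol A ≤ ∫ a in A, h a := by
  obtain ⟨hm2, hv2⟩ := Cap_img hm y (show (1 / 2 : ℝ) < 1 by norm_num)
  set B := (fun a => (1 / 2 : ℝ) • y + (1 - 1 / 2 : ℝ) • a) '' A with hB
  have hBA : B ⊆ A := by
    rintro _ ⟨a, ha, rfl⟩
    exact hA hy ha (by norm_num) (by norm_num) (by norm_num)
  have hBf : volume B ≠ ⊤ := ((measure_mono hBA).trans_lt (lt_top_iff_ne_top.2 hfin)).ne
  have hvB : vol B = (1 / 2 : ℝ) ^ d * vol A := by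
    unfold vol
    rw [hv2, ENNReal.toReal_mul, ENNReal.toReal_ofReal (by positivity)]
    norm_num
  have h1 : ∫ a in B, h a ≤ ∫ a in A, h a := by
    refine setIntegral_mono_set hint ?_ hBA.eventuallyLE
    exact (ae_restrict_iff' hm).2 (Filter.Eventually.of_forall h0)
  have h2 : h y / 2 * vol B ≤ ∫ a in B, h a := by
    have e1 : ∫ _ in B, (h y / 2) = h y / 2 * vol B := by
      rw [setIntegral_const, smul_eq_mul, mul_comm]
      rfl
    rw [← e1]
    refine setIntegral_mono_on (integrableOn_const hBf) (hint.mono_set hBA) hm2 ?_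
    rintro _ ⟨a, ha, rfl⟩
    have := hconc y hy a ha
    have := h0 a ha
    simp only
    linarith
  have h3 : (1 / 2 : ℝ) ^ (d + 1) * h y * vol A = h y / 2 * vol B := by
    rw [hvB, pow_succ]
    ring
  linarith

/-- the body left after cutting off a cap -/
theorem Cap_body {d : ℕ} {D : Set (Fin d → ℝ)} (hD : IsBody D) {x z0 : Fin d → ℝ}
    (hx : x ∈ D) (hz : z0 ∈ interior D) (f : (Fin d → ℝ) →L[ℝ] ℝ) {u : ℝ} (h1 : f x < u)
    (h2 : u < f z0) :
    IsBody (D ∩ {y | u ≤ f y}) ∧ D \ (D ∩ {y | u ≤ f y}) = {y | y ∈ D ∧ f y < u} ∧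
      0 < vol {y | y ∈ D ∧ f y < u} := by
  have hm : ∀ y, y ∈ D \ (D ∩ {y | u ≤ f y}) ↔ y ∈ D ∧ f y < u := by
    intro y
    constructor
    · rintro ⟨hy, hn⟩
      refine ⟨hy, ?_⟩
      by_contra hcon
      exact hn ⟨hy, not_lt.1 hcon⟩
    · rintro ⟨hy, hn⟩
      exact ⟨hy, fun h => absurd h.2 (not_le.2 hn)⟩
  refine ⟨⟨?_, ?_, ?_⟩, ?_, ?_⟩
  · exact hD.1.inter (convex_halfSpace_ge f.isLinear u)
  · exact hD.2.1.inter_right (isClosed_le continuous_const f.continuous)
  · refine ⟨z0, ?_⟩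
    have ho : IsOpen (interior D ∩ {y | u < f y}) :=
      isOpen_interior.inter (isOpen_lt continuous_const f.continuous)
    have hsub : interior D ∩ {y | u < f y} ⊆ D ∩ {y | u ≤ f y} :=
      fun y hy => ⟨interior_subset hy.1, (show u < f y from hy.2).le⟩
    exact interior_maximal hsub ho ⟨hz, h2⟩
  · ext y
    exact hm y
  · have hcl : x ∈ closure (interior D) := by
      rw [hD.1.closure_interior_eq_closure_of_nonempty_interior hD.2.2]
      exact subset_closure hx
    have ho : IsOpen {y | f y < u} := isOpen_lt f.continuous continuous_const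
    obtain ⟨y, hy1, hy2⟩ := mem_closure_iff.1 hcl _ ho h1
    rw [vol, ENNReal.toReal_pos_iff]
    refine ⟨?_, ((measure_mono fun y hy => hy.1).trans_lt hD.2.1.measure_lt_top)⟩
    have hsub : {y | f y < u} ∩ interior D ⊆ {y | y ∈ D ∧ f y < u} :=
      fun w hw => ⟨interior_subset hw.2, hw.1⟩
    exact ((ho.inter isOpen_interior).measure_pos volume ⟨y, hy1, hy2⟩).trans_le
      (measure_mono hsub)

/-- an upper bound on small caps bounds the slopes -/
theorem Cap_star {d : ℕ} (hd : 2 ≤ d) {D : Set (Fin d → ℝ)} (hL : LocMax d D)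
    {x z0 : Fin d → ℝ} (hx : x ∈ D) (hz : z0 ∈ interior D) (hzx : z0 ≠ x)
    (f : (Fin d → ℝ) →L[ℝ] ℝ) (hf : ∀ y ∈ D, y ≠ x → f x < f y) {M N : ℝ} (hM0 : 0 ≤ M)
    (hM : ∃ δ0 : ℝ, 0 < δ0 ∧ ∀ δ : ℝ, 0 < δ → δ < δ0 → ∀ y ∈ D, f y < f x + δ →
      phi D y - tau d D ≤ M * δ)
    {y0 : Fin d → ℝ} (hy0 : y0 ∈ D) (hne : y0 ≠ x)
    (hN : ∃ t0 : ℝ, 0 < t0 ∧ ∀ t : ℝ, 0 < t → t < t0 →
      phi D (x + t • (y0 - x)) - tau d D ≤ -(t * N)) :
    N ≤ 2 ^ (d + 2) * M * (f y0 - f x) := by
  by_contra hcon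
  have hcon' := not_le.1 hcon
  have hD := hL.1
  set F := f y0 - f x with hF
  have hF0 : 0 < F := sub_pos.2 (hf y0 hy0 hne)
  obtain ⟨C, δc, hC, hδc, hcut⟩ := Bi_cut hL
  obtain ⟨δM, hδM, hMb⟩ := hM
  obtain ⟨t0, ht0, hNb⟩ := hN
  set c' := N / (2 ^ (d + 2) * F) - M with hc'
  have hc0 : 0 < c' := by
    rw [hc', sub_pos, lt_div_iff₀ (by positivity)]
    calc M * (2 ^ (d + 2) * F) = 2 ^ (d + 2) * M * F := by ring
      _ < N := hcon'
  obtain ⟨δv, hδv, hvb⟩ := Cap_vol hd hD hx (interior_subset hz) hzx f hf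
    (η := c' / (2 * C)) (by positivity)
  have hFz : 0 < f z0 - f x := sub_pos.2 (hf z0 (interior_subset hz) hzx)
  set η := c' / (2 * C) with hη
  have hη0 : 0 < η := by positivity
  obtain ⟨δ, hδ0, hδ⟩ : ∃ δ : ℝ, 0 < δ ∧ δ < δM ∧ δ < δv ∧ δ < f z0 - f x ∧ η * δ < δc ∧
      δ / (2 * F) < t0 ∧ δ / (2 * F) < 1 := by
    refine ⟨min (min δM δv) (min (f z0 - f x) (min (δc / η) (min (2 * F * t0) (2 * F)))) / 2,
      by positivity, ?_, ?_, ?_, ?_, ?_, ?_⟩
    · have h1 := (min_le_left (min δM δv)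
        (min (f z0 - f x) (min (δc / η) (min (2 * F * t0) (2 * F))))).trans (min_le_left _ _)
      linarith
    · have h1 := (min_le_left (min δM δv)
        (min (f z0 - f x) (min (δc / η) (min (2 * F * t0) (2 * F))))).trans (min_le_right _ _)
      linarith
    · have h1 := (min_le_right (min δM δv)
        (min (f z0 - f x) (min (δc / η) (min (2 * F * t0) (2 * F))))).trans (min_le_left _ _)
      linarith
    · have h1 := (min_le_right (min δM δv)
        (min (f z0 - f x) (min (δc / η) (min (2 * F * t0) (2 * F))))).trans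
        ((min_le_right _ _).trans (min_le_left _ _))
      have h2 : η * (δc / η) = δc := by field_simp
      have h3 := mul_le_mul_of_nonneg_left h1 hη0.le
      rw [h2] at h3
      linarith
    · have h1 := (min_le_right (min δM δv)
        (min (f z0 - f x) (min (δc / η) (min (2 * F * t0) (2 * F))))).trans
        ((min_le_right _ _).trans ((min_le_right _ _).trans (min_le_left _ _)))
      rw [div_lt_iff₀ (by positivity)]
      have : 0 < F * t0 := by positivity
      linarith
    · have h1 := (min_le_right (min δM δv)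
        (min (f z0 - f x) (min (δc / η) (min (2 * F * t0) (2 * F))))).trans
        ((min_le_right _ _).trans ((min_le_right _ _).trans (min_le_right _ _)))
      rw [div_lt_iff₀ (by positivity)]
      linarith
  obtain ⟨hd1, hd2, hd3, hd4, hd5, hd6⟩ := hδ
  obtain ⟨hKb, hKe, hKv⟩ := Cap_body hD hx hz f (u := f x + δ) (by linarith) (by linarith)
  set A := {y | y ∈ D ∧ f y < f x + δ} with hA
  have hAm : MeasurableSet A := by
    rw [← hKe]
    exact hD.2.1.measurableSet.diff hKb.2.1.measurableSet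
  have hAD : A ⊆ D := fun y hy => hy.1
  have hAf : volume A ≠ ⊤ := ((measure_mono hAD).trans_lt hD.2.1.measure_lt_top).ne
  have hAc : Convex ℝ A := hD.1.inter (convex_halfSpace_lt f.isLinear (f x + δ))
  have hAv := hvb δ hδ0 hd2
  have h8 := hcut _ hKb inter_subset_left (by
    rw [hKe]
    exact hAv.trans_lt hd4)
  rw [hKe] at h8
  have hint : IntegrableOn (fun y => phi D y - tau d D) A :=
    (((Bi_phi_cont hD.2.1).sub continuous_const).continuousOn.integrableOn_compact
      hD.2.1).mono_set hAD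
  have hinth : IntegrableOn (fun y => M * δ - (phi D y - tau d D)) A :=
    (integrableOn_const hAf).sub hint
  set t := δ / (2 * F) with ht
  have ht0' : 0 < t := by positivity
  have htF : t * F = δ / 2 := by
    rw [ht]
    field_simp
  have hyt : x + t • (y0 - x) ∈ A := by
    refine ⟨?_, ?_⟩
    · have := hD.1 hx hy0 (by linarith : (0 : ℝ) ≤ 1 - t) ht0'.le (by ring)
      have e : (1 - t) • x + t • y0 = x + t • (y0 - x) := by
        rw [sub_smul, one_smul, smul_sub]
        abel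
      rwa [e] at this
    · rw [map_add, map_smul, map_sub, smul_eq_mul]
      have : t * (f y0 - f x) = δ / 2 := htF
      linarith
  have hmean := Cap_mean hAc hAm hAf hinth (fun a _ b _ => by
    have h1 := (Bi_phi_conv hD.2.1).2 (mem_univ a) (mem_univ b)
      (by norm_num : (0 : ℝ) ≤ 1 / 2) (by norm_num : (0 : ℝ) ≤ 1 - 1 / 2) (by norm_num)
    simp only [smul_eq_mul] at h1
    linarith) (fun a ha => by
    have := hMb δ hδ0 hd1 a ha.1 ha.2
    linarith) hyt
  have h9 : ∫ y in A, (M * δ - (phi D y - tau d D)) =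
      M * δ * vol A - ∫ y in A, (phi D y - tau d D) := by
    have hic : IntegrableOn (fun _ : Fin d → ℝ => M * δ) A := integrableOn_const hAf
    have e1 : ∫ _ in A, (M * δ) = M * δ * vol A := by
      rw [setIntegral_const, smul_eq_mul, mul_comm]
      rfl
    rw [integral_sub hic hint, e1]
  rw [h9] at hmean
  have h10 := hNb t ht0' hd5
  have h11 : t * N ≤ M * δ - (phi D (x + t • (y0 - x)) - tau d D) := by
    have : 0 ≤ M * δ := by positivity
    linarith
  have h12 : (1 / 2 : ℝ) ^ (d + 1) * (t * N) * vol A ≤ (1 / 2 : ℝ) ^ (d + 1) *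
      (M * δ - (phi D (x + t • (y0 - x)) - tau d D)) * vol A := by
    apply mul_le_mul_of_nonneg_right _ hKv.le
    exact mul_le_mul_of_nonneg_left h11 (by positivity)
  have h13 : (1 / 2 : ℝ) ^ (d + 1) * (t * N) = (c' + M) * δ := by
    rw [hc', ht]
    rw [one_div, inv_pow, pow_succ (2 : ℝ) (d + 1)]
    field_simp
    ring
  rw [h13] at h12
  have h14 : c' * δ * vol A ≤ C * vol A ^ 2 := by linarith
  have h15 : c' * δ ≤ C * vol A := by
    have : c' * δ * vol A ≤ C * vol A * vol A := by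
      rw [sq, ← mul_assoc] at h14
      exact h14
    exact le_of_mul_le_mul_right this hKv
  have h16 : C * vol A ≤ C * (η * δ) := mul_le_mul_of_nonneg_left hAv hC.le
  have h17 : C * (η * δ) = c' * δ / 2 := by
    rw [hη]
    field_simp
  have : 0 < c' * δ := by positivity
  linarith

end Pool.Agent.SYX
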