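import Pool.Agent.SYX.Cap

/-! # Upper bound on caps from the decomposition into the part below the level and the far part -/

set_option autoImplicit false

namespace Pool.Agent.SYX

open MeasureTheory Set Pool.Agent.SYB

/-- decomposition of the points of the body -/
theorem Dec_main {d : ℕ} {D : Set (Fin d → ℝ)} (hD : IsCompact D) (hc : Convex ℝ D)
    {x : Fin d → ℝ} (hx : x ∈ D) {g : (Fin d → ℝ) → ℝ} (hg : ConvexOn ℝ univ g)
    (hgc : Continuous g) (hgx : g x ≤ 0) {r : ℝ} (hne : ∃ z ∈ D, r ≤ dist z x)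
    (hext : ∀ y ∈ extremePoints ℝ D, dist y x < r → g y ≤ 0) {y : Fin d → ℝ} (hy : y ∈ D) :
    ∃ w ∈ D, ∃ k ∈ convexHull ℝ (D \ Metric.ball x r), ∃ l : ℝ, 0 ≤ l ∧ l ≤ 1 ∧ g w ≤ 0 ∧
      y = (1 - l) • w + l • k := by
  set W := D ∩ {y | g y ≤ 0} with hW
  set K := convexHull ℝ (D \ Metric.ball x r) with hK
  have hWc : IsCompact W := hD.inter_right (isClosed_le hgc continuous_const)
  have hWv : Convex ℝ W := by
    refine hc.inter ?_
    intro a ha b hb u v hu hv huv
    have h1 := hg.2 (mem_univ a) (mem_univ b) hu hv huv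
    simp only [smul_eq_mul] at h1
    have ha' : g a ≤ 0 := ha
    have hb' : g b ≤ 0 := hb
    show g (u • a + v • b) ≤ 0
    have h2 : u * g a ≤ 0 := mul_nonpos_of_nonneg_of_nonpos hu ha'
    have h3 : v * g b ≤ 0 := mul_nonpos_of_nonneg_of_nonpos hv hb'
    linarith
  have hSc : IsCompact (D \ Metric.ball x r) := hD.diff Metric.isOpen_ball
  have hKc : IsCompact K := Geo_hull_compact hSc
  have hKne : K.Nonempty := by
    obtain ⟨z, hz, hzr⟩ := hne
    exact ⟨z, subset_convexHull ℝ _ ⟨hz, fun h => absurd (Metric.mem_ball.1 h) (not_lt.2 hzr)⟩⟩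
  have hT : IsCompact (convexHull ℝ (W ∪ K)) := Geo_hull_compact (hWc.union hKc)
  have h1 : D ⊆ convexHull ℝ (W ∪ K) := by
    rw [← closure_convexHull_extremePoints hD hc]
    refine closure_minimal ?_ hT.isClosed
    refine convexHull_mono fun e he => ?_
    by_cases h : dist e x < r
    · exact Or.inl ⟨he.1, hext e he h⟩
    · exact Or.inr (subset_convexHull ℝ _ ⟨he.1, fun h' => h (Metric.mem_ball.1 h')⟩)
  have h2 := h1 hy
  have hWne : W.Nonempty := ⟨x, hx, hgx⟩
  rw [convexHull_union hWne hKne, hWv.convexHull_eq,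
    (convex_convexHull ℝ _).convexHull_eq, mem_convexJoin] at h2
  obtain ⟨w, hw, k, hk, u, v, hu, hv, huv, hyv⟩ := h2
  refine ⟨w, hw.1, k, hk, v, hv, by linarith, hw.2, ?_⟩
  rw [← hyv, show 1 - v = u by linarith]

/-- Step 3: the upper bound on small caps -/
theorem Dec_cap {d : ℕ} {D : Set (Fin d → ℝ)} (hD : IsCompact D) (hc : Convex ℝ D)
    {x : Fin d → ℝ} (hx : x ∈ D) {g : (Fin d → ℝ) → ℝ} (hg : ConvexOn ℝ univ g)
    (hgc : Continuous g) (hgx : g x ≤ 0) {r : ℝ} (hr : 0 < r) (hne : ∃ z ∈ D, r ≤ dist z x)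
    (hext : ∀ y ∈ extremePoints ℝ D, dist y x < r → g y ≤ 0) (hxe : x ∈ extremePoints ℝ D)
    {p : (Fin d → ℝ) →L[ℝ] ℝ} (hp : HasFDerivAt g p x)
    (f : (Fin d → ℝ) →L[ℝ] ℝ) (hf : ∀ y ∈ D, y ≠ x → f x < f y) {M0 M : ℝ} (hM0 : 0 ≤ M0)
    (hk : ∀ k ∈ convexHull ℝ (D \ Metric.ball x r), p (k - x) ≤ M0 * (f k - f x))
    (hM : M0 < M) :
    ∃ δ0 : ℝ, 0 < δ0 ∧ ∀ δ : ℝ, 0 < δ → δ < δ0 → ∀ y ∈ D, f y < f x + δ → g y ≤ M * δ := by
  set K := convexHull ℝ (D \ Metric.ball x r) with hK
  have hSc : IsCompact (D \ Metric.ball x r) := hD.diff Metric.isOpen_ball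
  have hKc : IsCompact K := Geo_hull_compact hSc
  have hKD : K ⊆ D := convexHull_min sdiff_subset hc
  have hxK : x ∉ K := by
    intro h
    have h1 : x ∈ extremePoints ℝ K := ⟨h, fun y hy z hz hyz => hxe.2 (hKD hy) (hKD hz) hyz⟩
    exact (extremePoints_convexHull_subset h1).2 (Metric.mem_ball_self hr)
  have hKne : K.Nonempty := by
    obtain ⟨z, hz, hzr⟩ := hne
    exact ⟨z, subset_convexHull ℝ _ ⟨hz, fun h => absurd (Metric.mem_ball.1 h) (not_lt.2 hzr)⟩⟩
  obtain ⟨c, hc0, hcK⟩ : ∃ c : ℝ, 0 < c ∧ ∀ k ∈ K, c ≤ f k - f x := by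
    obtain ⟨m, hm, hmin⟩ := hKc.exists_isMinOn hKne f.continuous.continuousOn
    refine ⟨f m - f x, sub_pos.2 (hf m (hKD hm) (fun h => hxK (h ▸ hm))), fun k hk => ?_⟩
    have h2 : f m ≤ f k := hmin hk
    linarith
  obtain ⟨R, hR0, hR⟩ : ∃ R : ℝ, 0 < R ∧ ∀ a ∈ D, ∀ b ∈ D, ‖a - b‖ ≤ R := by
    obtain ⟨R, hR⟩ := hD.isBounded.exists_norm_le
    refine ⟨2 * |R| + 1, by positivity, fun a ha b hb => ?_⟩
    have h1 := norm_sub_le a b
    have h2 := hR a ha
    have h3 := hR b hb
    have h4 := le_abs_self R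
    linarith
  have hfD : ∀ w ∈ D, f x ≤ f w := by
    intro w hw
    by_cases h : w = x
    · rw [h]
    · exact (hf w hw h).le
  set η := c * (M - M0) / 2 with hη
  have hη0 : 0 < η := by
    have : 0 < M - M0 := by linarith
    positivity
  -- the step size
  obtain ⟨s, hs0, hs1, hsb⟩ : ∃ s : ℝ, 0 < s ∧ s ≤ 1 ∧ ∀ k ∈ D,
      g (x + s • (k - x)) ≤ s * (p (k - x) + η) := by
    have h1 := hp.isLittleO.def (show 0 < η / R by positivity)
    obtain ⟨ρ, hρ, hρb⟩ := Metric.eventually_nhds_iff.1 h1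
    refine ⟨min 1 (ρ / (2 * R)), lt_min one_pos (by positivity), min_le_left _ _, fun k hk => ?_⟩
    set s := min 1 (ρ / (2 * R)) with hs
    have hs0 : 0 < s := lt_min one_pos (by positivity)
    have h2 : s * R ≤ ρ / 2 := by
      have h3 := mul_le_mul_of_nonneg_right (min_le_right 1 (ρ / (2 * R))) hR0.le
      have h4 : ρ / (2 * R) * R = ρ / 2 := by field_simp
      linarith
    have hn : ‖s • (k - x)‖ = s * ‖k - x‖ := by
      rw [norm_smul, Real.norm_eq_abs, abs_of_pos hs0]
    have h5 : s * ‖k - x‖ ≤ s * R := mul_le_mul_of_nonneg_left (hR k hk x hx) hs0.le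
    have h6 := hρb (y := x + s • (k - x)) (by
      rw [dist_eq_norm, add_sub_cancel_left, hn]
      linarith)
    rw [add_sub_cancel_left, hn, Real.norm_eq_abs, map_smul, smul_eq_mul] at h6
    have h7 := (abs_le.1 h6).2
    have h8 : η / R * (s * ‖k - x‖) ≤ η / R * (s * R) :=
      mul_le_mul_of_nonneg_left h5 (by positivity)
    have h9 : η / R * (s * R) = s * η := by field_simp
    linarith
  -- uniform continuity
  have huc := hD.uniformContinuousOn_of_continuous hgc.continuousOn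
  obtain ⟨ρ, hρ, hρb⟩ := Metric.uniformContinuousOn_iff.1 huc (s * η) (by positivity)
  have hstep : ∀ w ∈ D, ∀ k ∈ D, dist w x < ρ →
      g (w + s • (k - w)) ≤ s * (p (k - x) + 2 * η) := by
    intro w hw k hk hwx
    have hm : ∀ a ∈ D, a + s • (k - a) ∈ D := by
      intro a ha
      have h1 := hc ha hk (by linarith : (0 : ℝ) ≤ 1 - s) hs0.le (by ring)
      have e : (1 - s) • a + s • k = a + s • (k - a) := by
        rw [sub_smul, one_smul, smul_sub]
        abel
      rwa [e] at h1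
    have h1 : dist (w + s • (k - w)) (x + s • (k - x)) < ρ := by
      rw [dist_eq_norm]
      have e : w + s • (k - w) - (x + s • (k - x)) = (1 - s) • (w - x) := by
        rw [sub_smul, one_smul, smul_sub, smul_sub, smul_sub]
        abel
      rw [e, norm_smul, Real.norm_eq_abs, abs_of_nonneg (by linarith)]
      rw [dist_eq_norm] at hwx
      have h2 := norm_nonneg (w - x)
      nlinarith
    have h2 := hρb _ (hm w hw) _ (hm x hx) h1
    rw [Real.dist_eq] at h2
    have h3 := (abs_lt.1 h2).2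
    have h4 := hsb k hk
    have h5 : s * (p (k - x) + 2 * η) = s * (p (k - x) + η) + s * η := by ring
    linarith
  obtain ⟨δ1, hδ1, hδ1b⟩ := Cap_small hD f hf (s := ρ / 2) (by positivity)
  refine ⟨min δ1 (min (c * s) (c * (ρ / (2 * R)))), by positivity, fun δ hδ hδ0 y hy hyf => ?_⟩
  have hδa := hδ0.trans_le (min_le_left _ _)
  have hδb := hδ0.trans_le ((min_le_right _ _).trans (min_le_left _ _))
  have hδc := hδ0.trans_le ((min_le_right _ _).trans (min_le_right _ _))
  obtain ⟨w, hw, k, hkK, l, hl0, hl1, hgw, hyw⟩ := Dec_main hD hc hx hg hgc hgx hne hext hy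
  have hkD := hKD hkK
  have hfy : f y = (1 - l) * f w + l * f k := by
    rw [hyw, map_add, map_smul, map_smul, smul_eq_mul, smul_eq_mul]
  have hlF : l * (f k - f x) ≤ δ := by
    have h1 : 0 ≤ (1 - l) * (f w - f x) := mul_nonneg (by linarith) (by linarith [hfD w hw])
    have h2 : f y - f x = (1 - l) * (f w - f x) + l * (f k - f x) := by
      rw [hfy]
      ring
    linarith
  have hlc : l * c ≤ δ := (mul_le_mul_of_nonneg_left (hcK k hkK) hl0).trans hlF
  have hls : l < s := by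
    by_contra h
    have h1 := mul_le_mul_of_nonneg_right (not_lt.1 h) hc0.le
    linarith
  have hlR : l * R < ρ / 2 := by
    have h1 : l < ρ / (2 * R) := by
      by_contra h
      have h1 := mul_le_mul_of_nonneg_right (not_lt.1 h) hc0.le
      linarith
    rw [lt_div_iff₀ (by positivity)] at h1
    linarith
  have hwx : dist w x < ρ := by
    have h1 : w - x = (y - x) + l • (w - k) := by
      rw [hyw, sub_smul, one_smul, smul_sub]
      abel
    rw [dist_eq_norm, h1]
    have h2 := norm_add_le (y - x) (l • (w - k))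
    rw [norm_smul, Real.norm_eq_abs, abs_of_nonneg hl0] at h2
    have h3 := mul_le_mul_of_nonneg_left (hR w hw k hkD) hl0
    have h4 := hδ1b y hy (by linarith)
    rw [dist_eq_norm] at h4
    linarith
  have hst := hstep w hw k hkD hwx
  have hyc : y = (1 - l / s) • w + (l / s) • (w + s • (k - w)) := by
    rw [hyw, smul_add, smul_smul, div_mul_cancel₀ _ hs0.ne', sub_smul, sub_smul, one_smul, smul_sub]
    abel
  have hls0 : 0 ≤ l / s := by positivity
  have hls1 : l / s ≤ 1 := by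
    rw [div_le_one hs0]
    exact hls.le
  have h1 := hg.2 (mem_univ w) (mem_univ (w + s • (k - w))) (by linarith : (0 : ℝ) ≤ 1 - l / s)
    hls0 (by ring)
  rw [← hyc] at h1
  simp only [smul_eq_mul] at h1
  have h2 : (1 - l / s) * g w ≤ 0 := mul_nonpos_of_nonneg_of_nonpos (by linarith) hgw
  have h3 := mul_le_mul_of_nonneg_left hst hls0
  have h4 : l / s * (s * (p (k - x) + 2 * η)) = l * p (k - x) + 2 * l * η := by
    field_simp
  have h5 : l * p (k - x) ≤ M0 * (l * (f k - f x)) := by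
    have := mul_le_mul_of_nonneg_left (hk k hkK) hl0
    linarith
  have h6 : M0 * (l * (f k - f x)) ≤ M0 * δ := mul_le_mul_of_nonneg_left hlF hM0
  have h7 : 2 * l * η = (l * c) * (M - M0) := by
    rw [hη]
    ring
  have h8 : (l * c) * (M - M0) ≤ δ * (M - M0) := mul_le_mul_of_nonneg_right hlc (by linarith)
  have h9 : M * δ = M0 * δ + δ * (M - M0) := by ring
  linarith

end Pool.Agent.SYX
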