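import Pool.Agent.SYB.Bi

/-! # The mean volume function is differentiable -/

set_option autoImplicit false

namespace Pool.Agent.SYX

open MeasureTheory Set Pool.Agent.SYL Pool.Agent.SYB

/-- the determinant vanishes only on a null set -/
theorem Dif_null {d : ℕ} (x : Fin d → ℝ) :
    ∀ᵐ y : Fin d → (Fin d → ℝ), dt (Fin.cons x y : Fin (d + 1) → (Fin d → ℝ)) ≠ 0 := by
  set s : Set (Fin d → (Fin d → ℝ)) :=
    {y | dt (Fin.cons x y : Fin (d + 1) → (Fin d → ℝ)) ≠ 0} with hs
  have hcont : Continuous fun y : Fin d → (Fin d → ℝ) =>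
      dt (Fin.cons x y : Fin (d + 1) → (Fin d → ℝ)) := by
    refine VProp_cont.comp (continuous_pi fun i => ?_)
    refine Fin.cases ?_ (fun j => ?_) i
    · simp only [Fin.cons_zero]
      exact continuous_const
    · simp only [Fin.cons_succ]
      exact continuous_apply j
  have hsm : MeasurableSet s := (isOpen_ne_fun hcont continuous_const).measurableSet
  set L : ℝ →ₗ[ℝ] (Fin d → (Fin d → ℝ)) :=
    LinearMap.toSpanSingleton ℝ _ (fun i => Pi.single i (1 : ℝ)) with hL
  refine ae_mem_of_ae_add_linearMap_mem L volume volume hsm fun y => ?_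
  have hfin : {t : ℝ | (-(Matrix.of fun i : Fin d => y i - x)).charpoly.IsRoot t}.Finite :=
    Polynomial.finite_setOfPred_isRoot (Matrix.charpoly_monic _).ne_zero
  have h0 : (volume : Measure ℝ)
      {t : ℝ | (-(Matrix.of fun i : Fin d => y i - x)).charpoly.IsRoot t} = 0 := hfin.measure_zero _
  rw [ae_iff]
  refine measure_mono_null ?_ h0
  intro t ht
  have ht' : dt (Fin.cons x (y + L t) : Fin (d + 1) → (Fin d → ℝ)) = 0 := by
    by_contra h
    exact ht h
  show Polynomial.eval t _ = 0
  rw [Matrix.eval_charpoly, ← ht', dt]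
  congr 1
  ext i j
  simp [hL, Matrix.scalar_apply, Matrix.diagonal_apply, Pi.single_apply, LinearMap.toSpanSingleton_apply,
    eq_comm]
  ring

/-- coefficients of the determinant as an affine function of the first vertex -/
noncomputable def Dif_a {d : ℕ} (y : Fin d → (Fin d → ℝ)) : (Fin d → ℝ) →L[ℝ] ℝ :=
  ∑ i, (dt (Fin.cons (Pi.single i 1) y : Fin (d + 1) → (Fin d → ℝ)) -
    dt (Fin.cons 0 y : Fin (d + 1) → (Fin d → ℝ))) • ContinuousLinearMap.proj i

theorem Dif_dt {d : ℕ} (y : Fin d → (Fin d → ℝ)) (x : Fin d → ℝ) :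
    dt (Fin.cons x y : Fin (d + 1) → (Fin d → ℝ)) =
      Dif_a y x + dt (Fin.cons 0 y : Fin (d + 1) → (Fin d → ℝ)) := by
  set N : (Fin d → ℝ) → ℝ := fun z => dt (Fin.cons z y : Fin (d + 1) → (Fin d → ℝ)) with hN
  have hsm : ∀ (c : ℝ) z, N (c • z) - N 0 = c * (N z - N 0) := by
    intro c z
    have h := VProp_affine y z 0 c (1 - c) (by ring)
    rw [smul_zero, add_zero] at h
    rw [hN]
    simp only
    rw [h]
    ring
  have hadd : ∀ z z', N (z + z') - N 0 = (N z - N 0) + (N z' - N 0) := by
    intro z z'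
    have h := VProp_affine y ((2 : ℝ) • z) ((2 : ℝ) • z') (1 / 2) (1 / 2) (by norm_num)
    rw [smul_smul, smul_smul] at h
    norm_num at h
    have h1 := hsm 2 z
    have h2 := hsm 2 z'
    rw [hN] at h1 h2 ⊢
    simp only at h1 h2 ⊢
    rw [h]
    linarith
  set M : (Fin d → ℝ) →ₗ[ℝ] ℝ :=
    { toFun := fun z => N z - N 0, map_add' := hadd, map_smul' := fun c z => by
        rw [hsm c z]
        rfl } with hM
  have h1 : M x = Dif_a y x := by
    conv_lhs => rw [← Finset.univ_sum_single x]
    rw [map_sum, Dif_a, sum_apply]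
    refine Finset.sum_congr rfl fun i _ => ?_
    have h2 : (Pi.single i (x i) : Fin d → ℝ) = x i • Pi.single i (1 : ℝ) := by
      rw [← Pi.single_smul, smul_eq_mul, mul_one]
    rw [h2, map_smul, smul_apply, ContinuousLinearMap.proj_apply, smul_eq_mul,
      smul_eq_mul, mul_comm]
    rfl
  have h2 : M x = N x - N 0 := rfl
  rw [h2] at h1
  show N x = _ + N 0
  linarith

theorem Dif_cont {d : ℕ} (x : Fin d → ℝ) : Continuous fun y : Fin d → (Fin d → ℝ) =>
    dt (Fin.cons x y : Fin (d + 1) → (Fin d → ℝ)) := by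
  refine VProp_cont.comp (continuous_pi fun i => ?_)
  refine Fin.cases ?_ (fun j => ?_) i
  · simp only [Fin.cons_zero]
    exact continuous_const
  · simp only [Fin.cons_succ]
    exact continuous_apply j

theorem Dif_acont {d : ℕ} : Continuous (Dif_a : (Fin d → (Fin d → ℝ)) → _) := by
  unfold Dif_a
  refine continuous_finsetSum _ fun i _ => ?_
  exact ((Dif_cont _).sub (Dif_cont _)).smul continuous_const

/-- the mean volume function is differentiable -/
theorem Dif_main {d : ℕ} {D : Set (Fin d → ℝ)} (hD : IsCompact D) (x : Fin d → ℝ) :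
    ∃ p : (Fin d → ℝ) →L[ℝ] ℝ, HasFDerivAt (phi D) p x := by
  set c := vol (Dl d) with hc
  have hc0 : 0 ≤ c := ENNReal.toReal_nonneg
  have hVd : ∀ v : Fin (d + 1) → (Fin d → ℝ), V v = c * |dt v| := fun v =>
    thm_Vdet thm_hull thm_Dl d v
  have hKc : IsCompact (Set.pi univ fun _ : Fin d => D) := isCompact_univ_pi fun _ => hD
  set s : (Fin d → (Fin d → ℝ)) → ℝ := fun y =>
    if 0 < dt (Fin.cons x y : Fin (d + 1) → (Fin d → ℝ)) then 1 else -1 with hs
  have hsm : Measurable s :=
    Measurable.ite (isOpen_lt continuous_const (Dif_cont x)).measurableSet measurable_const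
      measurable_const
  have hmain := hasFDerivAt_integral_of_dominated_loc_of_lip'
    (μ := (volume : Measure (Fin d → (Fin d → ℝ))).restrict (Set.pi univ fun _ : Fin d => D))
    (F := fun (z : Fin d → ℝ) (y : Fin d → (Fin d → ℝ)) =>
      V (Fin.cons z y : Fin (d + 1) → (Fin d → ℝ)))
    (F' := fun y => (c * s y) • Dif_a y) (x₀ := x) (s := univ) (bound := fun y => c * ‖Dif_a y‖)
    Filter.univ_mem ?_ ?_ ?_ ?_ ?_ ?_
  · exact ⟨_, hmain.2⟩
  · intro z _
    simp only [hVd]
    exact (continuous_const.mul (Dif_cont z).abs).aestronglyMeasurable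
  · simp only [hVd]
    exact (continuous_const.mul (Dif_cont x).abs).continuousOn.integrableOn_compact hKc
  · exact ((hsm.const_mul c).aestronglyMeasurable).smul Dif_acont.aestronglyMeasurable
  · refine Filter.Eventually.of_forall fun y z _ => ?_
    rw [hVd, hVd, ← mul_sub, norm_mul, Real.norm_eq_abs, abs_of_nonneg hc0, mul_assoc]
    refine mul_le_mul_of_nonneg_left ?_ hc0
    rw [Real.norm_eq_abs]
    refine (abs_abs_sub_abs_le_abs_sub _ _).trans ?_
    rw [Dif_dt y z, Dif_dt y x, add_sub_add_right_eq_sub, ← map_sub]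
    exact (Dif_a y).le_opNorm _
  · exact (continuous_const.mul Dif_acont.norm).continuousOn.integrableOn_compact hKc
  · refine ae_restrict_of_ae ?_
    filter_upwards [Dif_null x] with y hy
    have h1 : HasFDerivAt (fun z : Fin d → ℝ =>
        dt (Fin.cons z y : Fin (d + 1) → (Fin d → ℝ))) (Dif_a y) x := by
      have h2 : (fun z : Fin d → ℝ => dt (Fin.cons z y : Fin (d + 1) → (Fin d → ℝ))) =
          fun z => Dif_a y z + dt (Fin.cons 0 y : Fin (d + 1) → (Fin d → ℝ)) := by
        funext z
        exact Dif_dt y z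
      rw [h2]
      exact (Dif_a y).hasFDerivAt.add_const _
    have h3 := (h1.abs hy).const_mul c
    simp only [hVd]
    have h4 : (c * s y) • Dif_a y =
        c • ((SignType.sign (dt (Fin.cons x y : Fin (d + 1) → (Fin d → ℝ))) : ℝ) • Dif_a y) := by
      rw [smul_smul]
      congr 2
      rw [hs]
      simp only
      rcases lt_or_gt_of_ne hy with h | h
      · rw [if_neg (not_lt.2 h.le), sign_neg h]
        simp
      · rw [if_pos h, sign_pos h]
        simp
    rw [h4]
    exact h3

end Pool.Agent.SYX
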