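import Pool.Agent.SYX.Cap
import Pool.Agent.SYX.Dec

/-! # Exposed points of a local maximiser: the iteration over the exposing functionals -/

set_option autoImplicit false

namespace Pool.Agent.SYX

open MeasureTheory Set Pool.Agent.SYL Pool.Agent.SYB

/-- first order bound from above along a direction -/
theorem Iter_dir {d : ℕ} {g : (Fin d → ℝ) → ℝ} {x v : Fin d → ℝ} {p : (Fin d → ℝ) →L[ℝ] ℝ}
    (hp : HasFDerivAt g p x) {N : ℝ} (hN : p v < N) :
    ∃ t0 : ℝ, 0 < t0 ∧ ∀ t : ℝ, 0 < t → t < t0 → g (x + t • v) - g x ≤ t * N := by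
  set ε := (N - p v) / (‖v‖ + 1) with hε
  have hv0 : 0 < ‖v‖ + 1 := by positivity
  have hε0 : 0 < ε := div_pos (sub_pos.2 hN) hv0
  have h1 := hp.isLittleO.def hε0
  obtain ⟨ρ, hρ, hρb⟩ := Metric.eventually_nhds_iff.1 h1
  refine ⟨ρ / (‖v‖ + 1), by positivity, fun t ht0 ht => ?_⟩
  rw [lt_div_iff₀ hv0] at ht
  have hn : ‖t • v‖ = t * ‖v‖ := by
    rw [norm_smul, Real.norm_eq_abs, abs_of_pos ht0]
  have h2 := hρb (y := x + t • v) (by
    rw [dist_eq_norm, add_sub_cancel_left, hn]
    linarith)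
  rw [add_sub_cancel_left, hn, Real.norm_eq_abs, map_smul, smul_eq_mul] at h2
  have h3 := (abs_le.1 h2).2
  have h4 : ε * (‖v‖ + 1) = N - p v := by
    rw [hε]
    field_simp
  have h5 : ε * (t * ‖v‖) ≤ t * (N - p v) := by
    rw [← h4]
    have : ε * (t * ‖v‖) + t * ε = t * (ε * (‖v‖ + 1)) := by ring
    have h6 : 0 < t * ε := by positivity
    linarith
  linarith

/-- the derivative of a convex function is below the difference -/
theorem Iter_sub {d : ℕ} {g : (Fin d → ℝ) → ℝ} (hg : ConvexOn ℝ univ g) {x z : Fin d → ℝ}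
    {p : (Fin d → ℝ) →L[ℝ] ℝ} (hp : HasFDerivAt g p x) : p (z - x) ≤ g z - g x := by
  by_contra hcon
  have hcon' := not_le.1 hcon
  obtain ⟨N, hN1, hN2⟩ := exists_between hcon'
  have hp' : HasFDerivAt (fun y => -g y) (-p) x := hp.neg
  obtain ⟨t0, ht0, htb⟩ := Iter_dir hp' (v := z - x) (N := -N) (by
    show -(p (z - x)) < _
    linarith)
  obtain ⟨t, ht1, ht2, ht3⟩ : ∃ t : ℝ, 0 < t ∧ t < t0 ∧ t < 1 :=
    ⟨min t0 1 / 2, by positivity, by
      have := min_le_left t0 1
      linarith, by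
      have := min_le_right t0 (1 : ℝ)
      linarith⟩
  have h1 := htb t ht1 ht2
  have h2 := hg.2 (mem_univ x) (mem_univ z) (by linarith : (0 : ℝ) ≤ 1 - t) ht1.le (by ring)
  simp only [smul_eq_mul] at h2
  have e : (1 - t) • x + t • z = x + t • (z - x) := by
    rw [sub_smul, one_smul, smul_sub]
    abel
  rw [e] at h2
  have h3 : t * N ≤ t * (g z - g x) := by linarith
  have h4 := le_of_mul_le_mul_left h3 ht1
  linarith

/-- Step 5: a bound for the slopes on the far part bounds the slopes on the whole body -/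
theorem Iter_star {d : ℕ} (hd : 2 ≤ d) {D : Set (Fin d → ℝ)} (hL : LocMax d D)
    {x z0 : Fin d → ℝ} (hx : x ∈ extremePoints ℝ D) (hz : z0 ∈ interior D) {r : ℝ} (hr : 0 < r)
    (hzr : r ≤ dist z0 x)
    (hext : ∀ y ∈ extremePoints ℝ D, dist y x < r → phi D y - tau d D ≤ 0)
    {p : (Fin d → ℝ) →L[ℝ] ℝ} (hp : HasFDerivAt (fun y => phi D y - tau d D) p x)
    (hgx : phi D x - tau d D = 0)
    (f : (Fin d → ℝ) →L[ℝ] ℝ) (hf : ∀ y ∈ D, y ≠ x → f x < f y) {M0 : ℝ} (hM0 : 0 ≤ M0)
    (hk : ∀ k ∈ convexHull ℝ (D \ Metric.ball x r), p (k - x) ≤ M0 * (f k - f x))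
    {y : Fin d → ℝ} (hy : y ∈ D) : -p (y - x) ≤ 2 ^ (d + 2) * M0 * (f y - f x) := by
  have hD := hL.1
  by_cases hyx : y = x
  · rw [hyx, sub_self, map_zero, sub_self, mul_zero, neg_zero]
  by_contra hcon
  have hcon' := not_le.1 hcon
  set F := f y - f x with hF
  have hF0 : 0 < F := sub_pos.2 (hf y hy hyx)
  set P : ℝ := 2 ^ (d + 2) with hP
  have hP0 : 0 < P := by positivity
  set gap := -p (y - x) - P * M0 * F with hgap
  have hgap0 : 0 < gap := by
    rw [hgap]
    linarith
  set M := M0 + gap / (4 * P * F) with hM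
  have hMM : M0 < M := by
    rw [hM]
    have : 0 < gap / (4 * P * F) := by positivity
    linarith
  have hPM : P * M * F = P * M0 * F + gap / 4 := by
    rw [hM]
    field_simp
  have hzx : z0 ≠ x := by
    intro h
    rw [h, dist_self] at hzr
    linarith
  have hg : ConvexOn ℝ univ (fun y => phi D y - tau d D) := by
    have h1 := (Bi_phi_conv hD.2.1).add_const (-tau d D)
    exact h1
  have hgc : Continuous (fun y => phi D y - tau d D) := (Bi_phi_cont hD.2.1).sub continuous_const
  have h1 := Dec_cap hD.2.1 hD.1 hx.1 hg hgc hgx.le hr ⟨z0, interior_subset hz, hzr⟩ hext hx hp f hf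
    hM0 hk hMM
  have h2 : p (y - x) < -(P * M * F + gap / 4) := by
    rw [hPM]
    linarith
  obtain ⟨t0, ht0, ht1⟩ := Iter_dir hp h2
  have h3 := Cap_star hd hL hx.1 hz hzx f hf (hM0.trans hMM.le) h1 hy hyx
    (N := P * M * F + gap / 4) ⟨t0, ht0, fun t h h' => by
      have h4 := ht1 t h h'
      have h5 : t * -(P * M * F + gap / 4) = -(t * (P * M * F + gap / 4)) := by ring
      linarith⟩
  linarith

/-- Step 6: there is no exposed point near which the level is not exceeded at extreme points -/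
theorem Iter_main {d : ℕ} (hd : 2 ≤ d) {D : Set (Fin d → ℝ)} (hL : LocMax d D)
    {x z0 : Fin d → ℝ} (hx : x ∈ extremePoints ℝ D) (hz : z0 ∈ interior D)
    (hzlev : phi D z0 < tau d D) {r : ℝ} (hr : 0 < r) (hzr : r ≤ dist z0 x)
    (hext : ∀ y ∈ extremePoints ℝ D, dist y x < r → phi D y - tau d D ≤ 0)
    {p : (Fin d → ℝ) →L[ℝ] ℝ} (hp : HasFDerivAt (fun y => phi D y - tau d D) p x)
    (f : (Fin d → ℝ) →L[ℝ] ℝ) (hf : ∀ y ∈ D, y ≠ x → f x < f y) : False := by
  have hD := hL.1
  have hgx : phi D x - tau d D = 0 :=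
    le_antisymm (hext x hx (by rw [dist_self]; exact hr)) (sub_nonneg.2 (Ext_A hd hL hx))
  have hg : ConvexOn ℝ univ (fun y => phi D y - tau d D) :=
    (Bi_phi_conv hD.2.1).add_const (-tau d D)
  have hzx : z0 ≠ x := by
    intro h
    rw [h, dist_self] at hzr
    linarith
  have hzD := interior_subset hz
  have hpz : p (z0 - x) < 0 := by
    have := Iter_sub hg hp (z := z0)
    linarith
  set K := convexHull ℝ (D \ Metric.ball x r) with hK
  have hSc : IsCompact (D \ Metric.ball x r) := hD.2.1.diff Metric.isOpen_ball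
  have hKc : IsCompact K := Geo_hull_compact hSc
  have hKD : K ⊆ D := convexHull_min sdiff_subset hD.1
  have hxK : x ∉ K := by
    intro h
    have h1 : x ∈ extremePoints ℝ K := ⟨h, fun y hy z hz hyz => hx.2 (hKD hy) (hKD hz) hyz⟩
    exact (extremePoints_convexHull_subset h1).2 (Metric.mem_ball_self hr)
  have hKne : K.Nonempty := ⟨z0, subset_convexHull ℝ _ ⟨hzD, fun h => by
    have := Metric.mem_ball.1 h
    linarith⟩⟩
  set P : ℝ := 2 ^ (d + 2) with hP
  have hP0 : 0 < P := by positivity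
  -- the base
  obtain ⟨M0, hM0, hM0b⟩ : ∃ M0 : ℝ, 0 < M0 ∧ ∀ k ∈ K, p (k - x) ≤ M0 * (f k - f x) := by
    obtain ⟨m, hm, hmin⟩ := hKc.exists_isMinOn hKne f.continuous.continuousOn
    obtain ⟨b, hb, hmax⟩ := hKc.exists_isMaxOn hKne (f := fun k => p (k - x))
      (by fun_prop)
    have hc0 : 0 < f m - f x := sub_pos.2 (hf m (hKD hm) (fun h => hxK (h ▸ hm)))
    refine ⟨(|p (b - x)| + 1) / (f m - f x), by positivity, fun k hk => ?_⟩
    have h1 : p (k - x) ≤ p (b - x) := hmax hk
    have h2 : f m ≤ f k := hmin hk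
    have h3 : (|p (b - x)| + 1) / (f m - f x) * (f m - f x) ≤
        (|p (b - x)| + 1) / (f m - f x) * (f k - f x) :=
      mul_le_mul_of_nonneg_left (by linarith) (by positivity)
    have h4 : (|p (b - x)| + 1) / (f m - f x) * (f m - f x) = |p (b - x)| + 1 := by
      field_simp
    have h5 := le_abs_self (p (b - x))
    linarith
  set s0 := 1 / (2 * P * M0) with hs0
  have hs00 : 0 < s0 := by positivity
  have key : ∀ n : ℕ, ∀ y ∈ D, y ≠ x →
      (f + (s0 * (1 + 1 / (2 * P)) ^ n) • p) x < (f + (s0 * (1 + 1 / (2 * P)) ^ n) • p) y := by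
    intro n
    induction n with
    | zero =>
      intro y hy hyx
      have h1 := Iter_star hd hL hx hz hr hzr hext hp hgx f hf hM0.le hM0b hy
      have h2 := sub_pos.2 (hf y hy hyx)
      rw [map_sub] at h1
      have h3 : s0 * (-(p y - p x)) ≤ s0 * (P * M0 * (f y - f x)) :=
        mul_le_mul_of_nonneg_left h1 hs00.le
      have h4 : s0 * (P * M0 * (f y - f x)) = (f y - f x) / 2 := by
        rw [hs0]
        field_simp
      show f x + (s0 * (1 + 1 / (2 * P)) ^ 0) * p x < f y + (s0 * (1 + 1 / (2 * P)) ^ 0) * p y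
      rw [pow_zero, mul_one]
      linarith
    | succ n ih =>
      intro y hy hyx
      set s := s0 * (1 + 1 / (2 * P)) ^ n with hs
      have hspos : 0 < s := by positivity
      have hk : ∀ k ∈ K, p (k - x) ≤ (1 / s) * ((f + s • p) k - (f + s • p) x) := by
        intro k hkK
        have h1 : f x ≤ f k := by
          by_cases h : k = x
          · rw [h]
          · exact (hf k (hKD hkK) h).le
        have h2 : (f + s • p) k - (f + s • p) x = (f k - f x) + s * p (k - x) := by
          show f k + s * p k - (f x + s * p x) = _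
          rw [map_sub]
          ring
        rw [h2]
        have h3 : (1 / s) * ((f k - f x) + s * p (k - x)) = (1 / s) * (f k - f x) + p (k - x) := by
          field_simp
        rw [h3]
        have h4 : 0 ≤ (1 / s) * (f k - f x) := mul_nonneg (by positivity) (by linarith)
        linarith
      have h1 := Iter_star hd hL hx hz hr hzr hext hp hgx (f + s • p) ih (by positivity) hk hy
      have h2 := sub_pos.2 (ih y hy hyx)
      set Fs := (f + s • p) y - (f + s • p) x with hFs
      have hFse : Fs = (f y + s * p y) - (f x + s * p x) := rfl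
      have h3 : s / (2 * P) * (-p (y - x)) ≤ s / (2 * P) * (P * (1 / s) * Fs) :=
        mul_le_mul_of_nonneg_left h1 (by positivity)
      have h4 : s / (2 * P) * (P * (1 / s) * Fs) = Fs / 2 := by
        field_simp
      rw [h4, map_sub] at h3
      have h5 : s0 * (1 + 1 / (2 * P)) ^ (n + 1) = s + s / (2 * P) := by
        rw [hs, pow_succ]
        ring
      rw [h5]
      show f x + (s + s / (2 * P)) * p x < f y + (s + s / (2 * P)) * p y
      have h6 : (f y + (s + s / (2 * P)) * p y) - (f x + (s + s / (2 * P)) * p x) =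
          Fs - s / (2 * P) * (-(p y - p x)) := by
        rw [hFse]
        ring
      linarith
  obtain ⟨n, hn⟩ := pow_unbounded_of_one_lt ((f z0 - f x) / (s0 * -p (z0 - x)))
    (show (1 : ℝ) < 1 + 1 / (2 * P) by
      have : 0 < 1 / (2 * P) := by positivity
      linarith)
  have h1 := key n z0 hzD hzx
  have h2 : f x + (s0 * (1 + 1 / (2 * P)) ^ n) * p x < f z0 + (s0 * (1 + 1 / (2 * P)) ^ n) * p z0 :=
    h1
  have hq : 0 < s0 * -p (z0 - x) := mul_pos hs00 (by linarith)
  rw [div_lt_iff₀ hq, map_sub] at hn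
  have h3 : (1 + 1 / (2 * P)) ^ n * (s0 * -(p z0 - p x)) =
      (s0 * (1 + 1 / (2 * P)) ^ n) * p x - (s0 * (1 + 1 / (2 * P)) ^ n) * p z0 := by ring
  linarith

end Pool.Agent.SYX
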