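import Pool.Agent.SYB.Seg

/-! # Exposed ends of frontier segments have two linearly independent supporting functionals -/

set_option autoImplicit false

namespace Pool.Agent.SYX

open Set Pool.Agent.SYL Pool.Agent.SYB

/-- an exposed point which is an end of a segment in the frontier has two linearly independent
supporting functionals -/
theorem Str_two {d : ℕ} {D : Set (Fin d → ℝ)} (hD : IsBody D) {y z : Fin d → ℝ}
    (hy : y ∈ D.exposedPoints ℝ) (hne : z ≠ y) (hseg : segment ℝ y z ⊆ frontier D) :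
    ∃ l1 l2 : StrongDual ℝ (Fin d → ℝ), LinearIndependent ℝ ![l1, l2] ∧
      (∀ w ∈ D, l1 w ≤ l1 y) ∧ (∀ w ∈ D, l2 w ≤ l2 y) ∧ (∀ w ∈ D, l1 w = l1 y → w = y) := by
  obtain ⟨hyD, l1, hl1⟩ := hy
  have hzf : z ∈ frontier D := hseg (right_mem_segment ℝ y z)
  have hzD : z ∈ D := hD.2.1.isClosed.frontier_subset hzf
  set m : Fin d → ℝ := (1 / 2 : ℝ) • y + (1 / 2 : ℝ) • z with hm
  have hmf : m ∈ frontier D := hseg ⟨1 / 2, 1 / 2, by norm_num, by norm_num, by norm_num, rfl⟩
  obtain ⟨l2, hl2⟩ := geometric_hahn_banach_open_point hD.1.interior isOpen_interior hmf.2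
  have hl2' : ∀ w ∈ D, l2 w ≤ l2 m := by
    intro w hw
    have h1 : w ∈ closure (interior D) := by
      rw [hD.1.closure_interior_eq_closure_of_nonempty_interior hD.2.2]
      exact subset_closure hw
    have h2 : IsClosed {w | l2 w ≤ l2 m} := isClosed_le l2.continuous continuous_const
    exact h2.closure_subset_iff.2 (fun v hv => (hl2 v hv).le) h1
  have hlm : l2 m = (l2 y + l2 z) / 2 := by
    rw [hm, map_add, map_smul, map_smul, smul_eq_mul, smul_eq_mul]
    ring
  have hly : l2 y = l2 m := by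
    have e1 := hl2' y hyD
    have e2 := hl2' z hzD
    linarith
  have hlz : l2 z = l2 y := by
    linarith
  have hzlt : l1 z < l1 y := by
    rcases lt_or_ge (l1 z) (l1 y) with h | h
    · exact h
    · exact absurd ((hl1 z hzD).2 h) hne
  obtain ⟨z0, hz0⟩ := hD.2.2
  have hz0lt : l2 z0 < l2 y := by
    rw [hly]
    exact hl2 z0 hz0
  refine ⟨l1, l2, ?_, fun w hw => (hl1 w hw).1, fun w hw => by rw [hly]; exact hl2' w hw,
    fun w hw h => (hl1 w hw).2 h.ge⟩
  rw [LinearIndependent.pair_iff]
  intro s t hst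
  have e1 : ∀ w, s * l1 w + t * l2 w = 0 := by
    intro w
    have := congrArg (fun l : StrongDual ℝ (Fin d → ℝ) => l w) hst
    simpa using this
  have hs : s = 0 := by
    have a1 := e1 y
    have a2 := e1 z
    rw [hlz] at a2
    have a3 : s * (l1 y - l1 z) = 0 := by linarith
    rcases mul_eq_zero.1 a3 with h | h
    · exact h
    · linarith
  have ht : t = 0 := by
    have a1 := e1 y
    have a2 := e1 z0
    rw [hs] at a1 a2
    have a3 : t * (l2 y - l2 z0) = 0 := by linarith
    rcases mul_eq_zero.1 a3 with h | h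
    · exact h
    · linarith
  exact ⟨hs, ht⟩

end Pool.Agent.SYX
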