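import Pool.Agent.SYB.Geo

/-! # Exposed points are dense among the extreme points -/

set_option autoImplicit false

namespace Pool.Agent.SYX

open MeasureTheory Set Pool.Agent.SYB

/-- a point of greatest distance from a centre is exposed -/
theorem Str_far {d : ℕ} {D : Set (Fin d → ℝ)} {c y : Fin d → ℝ} (hy : y ∈ D)
    (hmax : ∀ z ∈ D, ∑ i, (z i - c i) ^ 2 ≤ ∑ i, (y i - c i) ^ 2) : y ∈ D.exposedPoints ℝ := by
  set l : (Fin d → ℝ) →L[ℝ] ℝ := ∑ i, (y i - c i) • ContinuousLinearMap.proj i with hl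
  have hlz : ∀ z, l z = ∑ i, (y i - c i) * z i := by
    intro z
    rw [hl, sum_apply]
    refine Finset.sum_congr rfl fun i _ => ?_
    rw [smul_apply, ContinuousLinearMap.proj_apply, smul_eq_mul]
  have key : ∀ z ∈ D, l z - l y ≤ -(∑ i, (z i - y i) ^ 2) / 2 := by
    intro z hz
    have h1 := hmax z hz
    have h2 : l z - l y = (∑ i, (z i - c i) ^ 2 - ∑ i, (y i - c i) ^ 2) / 2 -
        (∑ i, (z i - y i) ^ 2) / 2 := by
      rw [hlz, hlz, ← Finset.sum_sub_distrib, ← Finset.sum_sub_distrib, Finset.sum_div,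
        Finset.sum_div, ← Finset.sum_sub_distrib]
      refine Finset.sum_congr rfl fun i _ => ?_
      ring
    rw [h2]
    linarith
  refine ⟨hy, l, fun z hz => ⟨?_, fun h => ?_⟩⟩
  · have h1 := key z hz
    have h2 : 0 ≤ ∑ i, (z i - y i) ^ 2 := Finset.sum_nonneg fun i _ => sq_nonneg _
    linarith
  · have h1 := key z hz
    have h2 : ∑ i, (z i - y i) ^ 2 = 0 :=
      le_antisymm (by linarith) (Finset.sum_nonneg fun i _ => sq_nonneg _)
    rw [Finset.sum_eq_zero_iff_of_nonneg fun i _ => sq_nonneg _] at h2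
    funext i
    have h3 := h2 i (Finset.mem_univ i)
    have h4 : z i - y i = 0 := by
      rwa [sq_eq_zero_iff] at h3
    linarith

/-- a compact convex set is the hull of the closure of its exposed points -/
theorem Str_hull {d : ℕ} {D : Set (Fin d → ℝ)} (hD : IsCompact D) (hc : Convex ℝ D) :
    D ⊆ convexHull ℝ (closure (D.exposedPoints ℝ)) := by
  have hX : closure (D.exposedPoints ℝ) ⊆ D :=
    closure_minimal exposedPoints_subset hD.isClosed
  have hXc : IsCompact (closure (D.exposedPoints ℝ)) := hD.of_isClosed_subset isClosed_closure hX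
  have hK : IsCompact (convexHull ℝ (closure (D.exposedPoints ℝ))) := Geo_hull_compact hXc
  have hKD : convexHull ℝ (closure (D.exposedPoints ℝ)) ⊆ D := convexHull_min hX hc
  by_contra hcon
  obtain ⟨y0, hy0, hy0K⟩ := not_subset.1 hcon
  obtain ⟨f, u, h1, h2⟩ := geometric_hahn_banach_point_closed
    (convex_convexHull ℝ (closure (D.exposedPoints ℝ))) hK.isClosed hy0K
  set a : Fin d → ℝ := fun i => f (Pi.single i 1) with ha
  have hf : ∀ z : Fin d → ℝ, f z = ∑ i, a i * z i := by
    intro z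
    conv_lhs => rw [← Finset.univ_sum_single z]
    rw [map_sum]
    refine Finset.sum_congr rfl fun i _ => ?_
    have h3 : (Pi.single i (z i) : Fin d → ℝ) = z i • Pi.single i (1 : ℝ) := by
      rw [← Pi.single_smul, smul_eq_mul, mul_one]
    rw [h3, map_smul, smul_eq_mul, mul_comm]
  obtain ⟨b0, -, hb0⟩ := hD.exists_isMaxOn ⟨y0, hy0⟩
    (f := fun z : Fin d → ℝ => ∑ i, (z i - y0 i) ^ 2) (by fun_prop)
  set B := ∑ i, (b0 i - y0 i) ^ 2 with hB
  have hB0 : 0 ≤ B := Finset.sum_nonneg fun i _ => sq_nonneg _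
  have hBz : ∀ z ∈ D, ∑ i, (z i - y0 i) ^ 2 ≤ B := fun z hz => hb0 hz
  set δ := u - f y0 with hδ
  have hδ0 : 0 < δ := by
    rw [hδ]
    linarith
  set R := (B + 1) / (2 * δ) with hR
  have hR0 : 0 < R := by positivity
  have hRδ : 2 * R * δ = B + 1 := by
    rw [hR]
    field_simp
  set c : Fin d → ℝ := fun i => y0 i + R * a i with hcdef
  obtain ⟨y, hy, hymax⟩ := hD.exists_isMaxOn ⟨y0, hy0⟩
    (f := fun z : Fin d → ℝ => ∑ i, (z i - c i) ^ 2) (by fun_prop)
  have hyexp : y ∈ D.exposedPoints ℝ := Str_far hy fun z hz => hymax hz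
  have hyK := subset_convexHull ℝ _ (subset_closure hyexp)
  have h3 := h2 y hyK
  have h4 : ∑ i, (y0 i - c i) ^ 2 ≤ ∑ i, (y i - c i) ^ 2 := hymax hy0
  have h5 : ∑ i, (y i - c i) ^ 2 - ∑ i, (y0 i - c i) ^ 2 =
      ∑ i, (y i - y0 i) ^ 2 - 2 * R * (f y - f y0) := by
    rw [hf, hf, ← Finset.sum_sub_distrib, ← Finset.sum_sub_distrib, Finset.mul_sum,
      ← Finset.sum_sub_distrib]
    refine Finset.sum_congr rfl fun i _ => ?_
    rw [hcdef]
    simp only
    ring
  have h6 := hBz y hy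
  have h7 : 2 * R * δ ≤ 2 * R * (f y - f y0) := by
    apply mul_le_mul_of_nonneg_left _ (by positivity)
    rw [hδ]
    linarith
  linarith

/-- exposed points are dense among the extreme points -/
theorem Str_main {d : ℕ} {D : Set (Fin d → ℝ)} (hD : IsCompact D) (hc : Convex ℝ D)
    {x : Fin d → ℝ} (hx : x ∈ extremePoints ℝ D) : x ∈ closure (D.exposedPoints ℝ) := by
  have hX : closure (D.exposedPoints ℝ) ⊆ D :=
    closure_minimal exposedPoints_subset hD.isClosed
  have hKD : convexHull ℝ (closure (D.exposedPoints ℝ)) ⊆ D := convexHull_min hX hc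
  have h1 : x ∈ extremePoints ℝ (convexHull ℝ (closure (D.exposedPoints ℝ))) :=
    ⟨Str_hull hD hc hx.1, fun y hy z hz hyz => hx.2 (hKD hy) (hKD hz) hyz⟩
  exact extremePoints_convexHull_subset h1

end Pool.Agent.SYX
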