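import Pool.Agent.SYX.Iter
import Pool.Agent.SYX.Dif
import Pool.Agent.SYX.Str
import Pool.Agent.SYX.Sing
import Pool.Agent.SYS.Two
import Pool.Agent.SYB.Seg

/-! # Exposed points above the critical level are dense among the extreme points -/

set_option autoImplicit false

namespace Pool.Agent.SYX

open MeasureTheory Set Pool.Agent.SYL Pool.Agent.SYB

/-- near every extreme point there is an exposed point above the level -/
theorem Main_dense {d : ℕ} (hd : 2 ≤ d) {D : Set (Fin d → ℝ)} (hL : LocMax d D)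
    {x : Fin d → ℝ} (hx : x ∈ extremePoints ℝ D) {r : ℝ} (hr : 0 < r) :
    ∃ y ∈ D.exposedPoints ℝ, dist x y < r ∧ tau d D < phi D y := by
  by_contra hcon
  push Not at hcon
  have hD := hL.1
  obtain ⟨z0, hz0, hzlev⟩ := Bi_low hD
  obtain ⟨x', hx', hxx⟩ := Metric.mem_closure_iff.1 (Str_main hD.2.1 hD.1 hx) (r / 2)
    (by positivity)
  have hx'e : x' ∈ extremePoints ℝ D := exposedPoints_subset_extremePoints hx'
  have hne : z0 ≠ x' := fun h => Ext_notint (by omega) hx'e (h ▸ hz0)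
  set ρ := min (r / 2) (dist z0 x') with hρ
  have hρ0 : 0 < ρ := lt_min (by positivity) (dist_pos.2 hne)
  have hext : ∀ y ∈ extremePoints ℝ D, dist y x' < ρ → phi D y - tau d D ≤ 0 := by
    intro y hy hyx
    by_contra hc
    have hc' : tau d D < phi D y := by linarith [not_le.1 hc]
    have ho : IsOpen ({w | tau d D < phi D w} ∩ Metric.ball x' ρ) :=
      (isOpen_lt continuous_const (Bi_phi_cont hD.2.1)).inter Metric.isOpen_ball
    obtain ⟨w, hw1, hw2⟩ := mem_closure_iff.1 (Str_main hD.2.1 hD.1 hy) _ ho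
      ⟨hc', Metric.mem_ball.2 hyx⟩
    have h1 : dist x w < r := by
      have h2 := dist_triangle x x' w
      have h3 : dist x' w < ρ := by
        rw [dist_comm]
        exact Metric.mem_ball.1 hw1.2
      have h4 := min_le_left (r / 2) (dist z0 x')
      linarith
    exact absurd hw1.1 (not_lt.2 (hcon w hw2 h1))
  obtain ⟨p, hp⟩ := Dif_main hD.2.1 x'
  obtain ⟨-, l, hl⟩ := hx'
  refine Iter_main hd hL hx'e hz0 hzlev hρ0 (min_le_right _ _) hext (p := p) (hp.sub_const _) (-l)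
    fun y hy hyx => ?_
  have h1 : ¬ l x' ≤ l y := fun h => hyx ((hl y hy).2 h)
  have h2 := not_le.1 h1
  show -(l x') < -(l y)
  linarith

/-- exposed points are frontier points -/
theorem Main_fr {d : ℕ} (hd : 1 ≤ d) {D : Set (Fin d → ℝ)} {y : Fin d → ℝ}
    (hy : y ∈ D.exposedPoints ℝ) : y ∈ frontier D :=
  ⟨subset_closure (exposedPoints_subset hy),
    Ext_notint hd (exposedPoints_subset_extremePoints hy)⟩

/-- the main theorem -/
theorem Main_all {d : ℕ} (hd : 2 ≤ d) {D : Set (Fin d → ℝ)} (hL : LocMax d D) {x : Fin d → ℝ}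
    (hx : x ∈ frontier D) {r : ℝ} (hr : 0 < r) :
    ∃ y ∈ frontier D, ∃ z ∈ frontier D, dist x y < r ∧ y ≠ z ∧ segment ℝ y z ⊆ frontier D ∧
      (x ∈ extremePoints ℝ D → y ∈ D.exposedPoints ℝ ∧ phi D z ≤ tau d D ∧ tau d D < phi D y ∧
        (∃ z' ∈ frontier D, segment ℝ y z' ⊆ frontier D ∧ phi D z' ≤ tau d D ∧
          LinearIndependent ℝ ![z - y, z' - y]) ∧
        ∃ l₁ l₂ : StrongDual ℝ (Fin d → ℝ), LinearIndependent ℝ ![l₁, l₂] ∧
          ∀ w ∈ D, l₁ w ≤ l₁ y ∧ l₂ w ≤ l₂ y) := by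
  by_cases hxe : x ∈ extremePoints ℝ D
  · obtain ⟨y, hy, hyr, hylev⟩ := Main_dense hd hL hxe hr
    have hyf := Main_fr (by omega) hy
    obtain ⟨z, hz, z', hz', hseg, hseg', hzl, hzl', hind⟩ :=
      Pool.Agent.SYS.Two (by omega) hL hy hylev
    have hne : z ≠ y := by
      rintro rfl
      linarith
    obtain ⟨l₁, l₂, h1, h2, h3, -⟩ := Str_two hL.1 hy hne hseg
    exact ⟨y, hyf, z, hz, hyr, hne.symm, hseg, fun _ => ⟨hy, hzl, hylev,
      ⟨z', hz', hseg', hzl', hind⟩, l₁, l₂, h1, fun w hw => ⟨h2 w hw, h3 w hw⟩⟩⟩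
  · obtain ⟨z, hz, hne, hseg⟩ := Seg_E hL.1 hx hxe
    exact ⟨x, hx, z, hz, by rw [dist_self]; exact hr, hne.symm, hseg, fun h => absurd h hxe⟩

end Pool.Agent.SYX
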