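import Pool.Agent.SYB.Seg

/-! # Local maximisers: the supporting functionals at a boundary point above the critical level -/

set_option autoImplicit false

namespace Pool.Agent.SYX

open MeasureTheory Set Filter Pool.Agent.SYL Pool.Agent.SYB

/-- additions in a direction `v` which leaves the body: there is a supporting functional at `y`,
nonnegative at `v`, which touches the body in a point below the level -/
theorem Norm_seq {d : ℕ} {D : Set (Fin d → ℝ)} (hL : LocMax d D) {y v : Fin d → ℝ} (hy : y ∈ D)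
    (hv : ∀ s : ℝ, 0 < s → y + s • v ∉ D) :
    ∃ q ∈ D, ∃ f : StrongDual ℝ (Fin d → ℝ), f ≠ 0 ∧ (∀ x ∈ D, f x ≤ f y) ∧ f q = f y ∧
      phi D q ≤ tau d D ∧ 0 ≤ f v := by
  have hD := hL.1
  obtain ⟨C, δ, hC, hδ, hadd⟩ := Bi_add hL
  set p : ℕ → (Fin d → ℝ) := fun n => y + (1 / ((n : ℝ) + 1)) • v with hp
  set K : ℕ → Set (Fin d → ℝ) := fun n => convexHull ℝ (insert (p n) D) with hK
  have hDK : ∀ n, D ⊆ K n := fun n => (subset_insert _ _).trans (subset_convexHull ℝ _)
  have hpout : ∀ n, p n ∉ D := fun n => hv _ (by positivity)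
  have hpx : Tendsto p atTop (nhds y) := by
    have h1 : Tendsto (fun n : ℕ => (1 / ((n : ℝ) + 1))) atTop (nhds 0) :=
      tendsto_one_div_add_atTop_nhds_zero_nat
    have h2 := (h1.smul_const v).const_add y
    simpa [hp] using h2
  -- the difference has small volume
  have hnear : ∀ n, ∀ z ∈ K n, ∃ q ∈ D, dist z q ≤ dist (p n) y := by
    intro n z hz
    obtain ⟨t, w, hw, ht0, ht1, rfl⟩ := Seg_mem hD hz
    refine ⟨y + t • (w - y), (by
        have := hD.1 hy hw (by linarith : (0 : ℝ) ≤ 1 - t) ht0 (by ring)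
        have e : (1 - t) • y + t • w = y + t • (w - y) := by
          rw [sub_smul, one_smul, smul_sub]
          abel
        rwa [e] at this), ?_⟩
    rw [dist_eq_norm, dist_eq_norm]
    have : p n + t • (w - p n) - (y + t • (w - y)) = (1 - t) • (p n - y) := by
      rw [sub_smul, one_smul, smul_sub, smul_sub, smul_sub]
      abel
    rw [this, norm_smul, Real.norm_eq_abs, abs_of_nonneg (by linarith)]
    have := norm_nonneg (p n - y)
    nlinarith
  have hthick : ∀ n, K n ⊆ Metric.cthickening (dist (p n) y) D := by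
    intro n z hz
    obtain ⟨q, hq, hq2⟩ := hnear n z hz
    exact Metric.mem_cthickening_of_dist_le z q _ _ hq hq2
  have hvol : Tendsto (fun n => vol (K n \ D)) atTop (nhds 0) := by
    have h1 := tendsto_measure_cthickening_of_isCompact (μ := (volume : Measure (Fin d → ℝ))) hD.2.1
    have h2 : Tendsto (fun n => dist (p n) y) atTop (nhds 0) :=
      tendsto_iff_dist_tendsto_zero.1 hpx
    have h3 := h1.comp h2
    have h4 : Tendsto (fun n => (volume (Metric.cthickening (dist (p n) y) D)).toReal) atTop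
        (nhds (volume D).toReal) :=
      (ENNReal.tendsto_toReal hD.2.1.measure_lt_top.ne).comp h3
    have h5 : Tendsto (fun n => (volume (Metric.cthickening (dist (p n) y) D)).toReal - vol D)
        atTop (nhds 0) := by
      have := h4.sub_const (vol D)
      rwa [show (volume D).toReal - vol D = 0 from sub_self _] at this
    refine squeeze_zero (fun n => ENNReal.toReal_nonneg) (fun n => ?_) h5
    have h6 := Bi_sdiff (Seg_body hD (p n)).2.1 hD.2.1 (hDK n)
    have h7 : vol (K n) ≤ (volume (Metric.cthickening (dist (p n) y) D)).toReal :=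
      ENNReal.toReal_mono hD.2.1.cthickening.measure_lt_top.ne (measure_mono (hthick n))
    show vol (K n \ D) ≤ _
    linarith
  have hvolpos : ∀ n, 0 < vol (K n \ D) := by
    intro n
    have hb := Seg_body hD (p n)
    have hcl : p n ∈ closure (interior (K n)) := by
      rw [hb.1.closure_interior_eq_closure_of_nonempty_interior hb.2.2]
      exact subset_closure (subset_convexHull ℝ _ (mem_insert _ _))
    have ho : IsOpen Dᶜ := hD.2.1.isClosed.isOpen_compl
    obtain ⟨y, hy1, hy2⟩ := mem_closure_iff.1 hcl _ ho (hpout n)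
    rw [vol, ENNReal.toReal_pos_iff]
    refine ⟨?_, ((measure_mono sdiff_subset).trans_lt hb.2.1.measure_lt_top)⟩
    have hsub : Dᶜ ∩ interior (K n) ⊆ K n \ D := fun w hw => ⟨interior_subset hw.2, hw.1⟩
    exact ((ho.inter isOpen_interior).measure_pos volume ⟨y, hy1, hy2⟩).trans_le
      (measure_mono hsub)
  by_contra hcon
  -- a uniform gap
  have hgap : ∃ c : ℝ, 0 < c ∧ ∃ N : ℕ, ∀ n ≥ N, ∀ z ∈ K n \ D, tau d D + c ≤ phi D z := by
    by_contra hg
    push Not at hg
    have hchoice : ∀ k : ℕ, ∃ n : ℕ, k ≤ n ∧ ∃ z ∈ K n \ D,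
        phi D z < tau d D + 1 / ((k : ℝ) + 1) := by
      intro k
      obtain ⟨n, hn, z, hz, hz2⟩ := hg (1 / ((k : ℝ) + 1)) (by positivity) k
      exact ⟨n, hn, z, hz, hz2⟩
    choose n hn z hz hzlev using hchoice
    have hntop : Tendsto n atTop atTop := tendsto_atTop_mono hn tendsto_id
    have hpn : Tendsto (fun k => p (n k)) atTop (nhds y) := hpx.comp hntop
    have hdn : Tendsto (fun k => dist (p (n k)) y) atTop (nhds 0) :=
      tendsto_iff_dist_tendsto_zero.1 hpn
    -- unit functionals separating the points from the body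
    have hsep : ∀ k, ∃ f : StrongDual ℝ (Fin d → ℝ), ‖f‖ = 1 ∧ (∀ x ∈ D, f x < f (z k)) ∧
        f (z k) ≤ f (p (n k)) ∧ 0 < f v := by
      intro k
      obtain ⟨f, u, h1, h2⟩ := geometric_hahn_banach_closed_point hD.1 hD.2.1.isClosed (hz k).2
      have hlt : ∀ x ∈ D, f x < f (z k) := fun x hx => (h1 x hx).trans h2
      have hf0 : f ≠ 0 := by
        rintro rfl
        exact lt_irrefl _ (hlt y hy)
      have hfn : 0 < ‖f‖ := norm_pos_iff.2 hf0
      obtain ⟨t, w, hw, ht0, ht1, htz⟩ := Seg_mem hD (hz k).1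
      have ht : t < 1 := by
        rcases eq_or_lt_of_le ht1 with h | h
        · exfalso
          apply (hz k).2
          rw [htz, h, one_smul, add_sub_cancel]
          exact hw
        · exact h
      have e1 : f (z k) = (1 - t) * f (p (n k)) + t * f w := by
        have := congrArg f htz
        simp only [map_add, map_smul, map_sub, smul_eq_mul] at this
        linarith
      have h3 : f (z k) ≤ f (p (n k)) := by
        have h4 := hlt w hw
        nlinarith
      have h5 : 0 < f v := by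
        have h6 := (hlt y hy).trans_le h3
        have h7 : f (p (n k)) = f y + (1 / (((n k : ℕ) : ℝ) + 1)) * f v := by
          simp [hp]
        have h8 : 0 < (1 / (((n k : ℕ) : ℝ) + 1)) * f v := by linarith
        exact (pos_iff_pos_of_mul_pos h8).1 (by positivity)
      refine ⟨‖f‖⁻¹ • f, ?_, fun x hx => ?_, ?_, ?_⟩
      · rw [norm_smul, norm_inv, norm_norm, inv_mul_cancel₀ hfn.ne']
      · simp only [_root_.smul_apply, smul_eq_mul]
        exact mul_lt_mul_of_pos_left (hlt x hx) (inv_pos.2 hfn)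
      · simp only [_root_.smul_apply, smul_eq_mul]
        exact mul_le_mul_of_nonneg_left h3 (inv_nonneg.2 hfn.le)
      · simp only [_root_.smul_apply, smul_eq_mul]
        exact mul_pos (inv_pos.2 hfn) h5
    choose f hf1 hf2 hf3 hf4 using hsep
    -- the points stay in a compact set
    have hbd : ∀ k, z k ∈ Metric.cthickening (‖v‖) D := by
      intro k
      refine Metric.cthickening_mono ?_ D (hthick (n k) (hz k).1)
      rw [hp]
      simp only
      rw [dist_eq_norm, add_sub_cancel_left, norm_smul, Real.norm_eq_abs,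
        abs_of_pos (by positivity)]
      have h1 : 1 / (((n k : ℕ) : ℝ) + 1) ≤ 1 := by
        rw [div_le_one (by positivity)]
        have : (0 : ℝ) ≤ (n k : ℕ) := Nat.cast_nonneg _
        linarith
      have := norm_nonneg v
      nlinarith
    have hcpt : IsCompact (Metric.cthickening (‖v‖) D ×ˢ
        Metric.sphere (0 : StrongDual ℝ (Fin d → ℝ)) 1) :=
      hD.2.1.cthickening.prod (isCompact_sphere _ _)
    obtain ⟨⟨q, g⟩, hqg, φ, hφ, hlim⟩ := hcpt.tendsto_subseq
      (x := fun k => (z k, f k)) (fun k => ⟨hbd k, by simp [hf1 k]⟩)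
    have hqt : Tendsto (fun k => z (φ k)) atTop (nhds q) :=
      (continuous_fst.tendsto _).comp hlim
    have hgt : Tendsto (fun k => f (φ k)) atTop (nhds g) :=
      (continuous_snd.tendsto _).comp hlim
    have hpφ : Tendsto (fun k => p (n (φ k))) atTop (nhds y) := hpn.comp hφ.tendsto_atTop
    have heval : ∀ (a : ℕ → (Fin d → ℝ)) (b : Fin d → ℝ), Tendsto a atTop (nhds b) →
        Tendsto (fun k => f (φ k) (a k)) atTop (nhds (g b)) := by
      intro a b hab
      have hc : Continuous (fun r : StrongDual ℝ (Fin d → ℝ) × (Fin d → ℝ) => r.1 r.2) :=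
        isBoundedBilinearMap_apply.continuous
      exact (hc.tendsto (g, b)).comp (hgt.prodMk_nhds hab)
    -- q lies in D
    have hqD : q ∈ D := by
      have h1 : ∀ k, Metric.infDist (z (φ k)) D ≤ dist (p (n (φ k))) y := by
        intro k
        obtain ⟨w, hq, hq2⟩ := hnear _ _ (hz (φ k)).1
        exact (Metric.infDist_le_dist_of_mem hq).trans hq2
      have h2 : Tendsto (fun k => Metric.infDist (z (φ k)) D) atTop (nhds 0) :=
        squeeze_zero (fun k => Metric.infDist_nonneg) h1 (hdn.comp hφ.tendsto_atTop)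
      have h3 : Tendsto (fun k => Metric.infDist (z (φ k)) D) atTop (nhds (Metric.infDist q D)) :=
        (Metric.continuous_infDist_pt D).continuousAt.tendsto.comp hqt
      have h4 : Metric.infDist q D = 0 := tendsto_nhds_unique h3 h2
      exact (hD.2.1.isClosed.mem_iff_infDist_zero ⟨y, hy⟩).2 h4
    have hqlev : phi D q ≤ tau d D := by
      have h1 : Tendsto (fun k => phi D (z (φ k))) atTop (nhds (phi D q)) :=
        (Bi_phi_cont hD.2.1).continuousAt.tendsto.comp hqt
      have h2 : Tendsto (fun k : ℕ => tau d D + 1 / (((φ k : ℕ) : ℝ) + 1)) atTop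
          (nhds (tau d D + 0)) :=
        (tendsto_one_div_add_atTop_nhds_zero_nat.comp hφ.tendsto_atTop).const_add _
      rw [add_zero] at h2
      exact le_of_tendsto_of_tendsto' h1 h2 fun k => (hzlev (φ k)).le
    have hg0 : g ≠ 0 := by
      have h1 := hqg.2
      intro h
      rw [h] at h1
      simp at h1
    have hle : ∀ x ∈ D, g x ≤ g q := fun x hx =>
      le_of_tendsto_of_tendsto' (heval _ _ tendsto_const_nhds) (heval _ _ hqt)
        fun k => (hf2 (φ k) x hx).le
    have hle2 : g q ≤ g y := le_of_tendsto_of_tendsto' (heval _ _ hqt) (heval _ _ hpφ)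
      fun k => hf3 (φ k)
    have hgv : 0 ≤ g v := ge_of_tendsto' (heval _ _ tendsto_const_nhds) fun k => (hf4 (φ k)).le
    exact hcon ⟨q, hqD, g, hg0, fun x hx => (hle x hx).trans hle2, le_antisymm hle2 (hle y hy),
      hqlev, hgv⟩
  obtain ⟨c, hc, N, hN⟩ := hgap
  have hev : ∀ᶠ m in atTop, vol (K m \ D) < min δ (c / C) :=
    hvol.eventually (gt_mem_nhds (lt_min hδ (div_pos hc hC)))
  obtain ⟨m, hm1, hm2⟩ := (hev.and (eventually_ge_atTop N)).exists
  have hb := Seg_body hD (p m)
  have h1 := hadd (K m) hb (hDK m) (hm1.trans_le (min_le_left _ _))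
  have hfin : volume (K m \ D) ≠ ⊤ :=
    ((measure_mono sdiff_subset).trans_lt hb.2.1.measure_lt_top).ne
  have h2 : c * vol (K m \ D) ≤ ∫ y in K m \ D, (phi D y - tau d D) := by
    have e1 : ∫ _ in K m \ D, c = c * vol (K m \ D) := by
      rw [setIntegral_const, smul_eq_mul, mul_comm]
      rfl
    rw [← e1]
    refine setIntegral_mono_on (integrableOn_const hfin)
      ((((Bi_phi_cont hD.2.1).sub continuous_const).continuousOn.integrableOn_compact
        hb.2.1).mono_set sdiff_subset) (hb.2.1.measurableSet.diff hD.2.1.measurableSet) ?_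
    intro y hy
    have := hN m hm2 y hy
    linarith
  have h3 : C * vol (K m \ D) < c := by
    have := hm1.trans_le (min_le_right _ _)
    rw [lt_div_iff₀ hC] at this
    linarith
  have h4 := hvolpos m
  have h5 := h2.trans h1
  nlinarith

/-- a nonzero functional maximal over the body at `y` is smaller in the interior -/
theorem Norm_int {d : ℕ} {D : Set (Fin d → ℝ)} {y z0 : Fin d → ℝ} (hz : z0 ∈ interior D)
    {f : StrongDual ℝ (Fin d → ℝ)} (hf0 : f ≠ 0) (hf : ∀ x ∈ D, f x ≤ f y) : f z0 < f y := by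
  obtain ⟨w, hw⟩ : ∃ w, 0 < f w := by
    by_contra h
    push Not at h
    apply hf0
    ext w
    have h1 := h w
    have h2 := h (-w)
    rw [map_neg] at h2
    show f w = 0
    linarith
  have h1 : Tendsto (fun s : ℝ => z0 + s • w) (nhdsWithin 0 (Ioi 0)) (nhds z0) := by
    have h2 : Continuous (fun s : ℝ => z0 + s • w) := by fun_prop
    have h3 := (h2.tendsto 0).mono_left (nhdsWithin_le_nhds (s := Ioi (0 : ℝ)))
    simpa using h3
  have h2 := h1.eventually (mem_interior_iff_mem_nhds.1 hz)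
  obtain ⟨s, hs1, hs2⟩ := (h2.and self_mem_nhdsWithin).exists
  have h3 := hf _ hs1
  rw [map_add, map_smul, smul_eq_mul] at h3
  have h4 : 0 < s * f w := mul_pos hs2 hw
  linarith

/-- common supporting functional: the segment lies in the frontier -/
theorem Norm_seg {d : ℕ} {D : Set (Fin d → ℝ)} (hD : Convex ℝ D) {y q : Fin d → ℝ} (hy : y ∈ D)
    (hq : q ∈ D) {f : StrongDual ℝ (Fin d → ℝ)} (hf0 : f ≠ 0) (hf : ∀ x ∈ D, f x ≤ f y)
    (hfq : f q = f y) : segment ℝ y q ⊆ frontier D := by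
  rintro _ ⟨a, b, ha, hb, hab, rfl⟩
  refine ⟨subset_closure (hD hy hq ha hb hab), fun hi => ?_⟩
  have h1 := Norm_int hi hf0 hf
  have h2 : f (a • y + b • q) = f y := by
    rw [map_add, map_smul, map_smul, hfq, smul_eq_mul, smul_eq_mul, ← add_mul, hab, one_mul]
  linarith

/-- the functionals supporting the body at `y` and at a point below the level cut out the tangent
cone at `y` -/
theorem Norm_cone {d : ℕ} {D : Set (Fin d → ℝ)} (hL : LocMax d D) {y v : Fin d → ℝ} (hy : y ∈ D)
    (hv : v ∉ closure {w : Fin d → ℝ | ∃ t : ℝ, 0 < t ∧ y + t • w ∈ D}) :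
    ∃ q ∈ D, ∃ f : StrongDual ℝ (Fin d → ℝ), f ≠ 0 ∧ (∀ x ∈ D, f x ≤ f y) ∧ f q = f y ∧
      phi D q ≤ tau d D ∧ 0 < f v := by
  obtain ⟨z0, hz0⟩ := hL.1.2.2
  have h1 : Tendsto (fun s : ℝ => v + s • (z0 - y)) (nhdsWithin 0 (Ioi 0)) (nhds v) := by
    have h2 : Continuous (fun s : ℝ => v + s • (z0 - y)) := by fun_prop
    have h3 := (h2.tendsto 0).mono_left (nhdsWithin_le_nhds (s := Ioi (0 : ℝ)))
    simpa using h3
  have h2 := h1.eventually (isClosed_closure.isOpen_compl.mem_nhds hv)
  obtain ⟨s, hs1, hs2⟩ := (h2.and self_mem_nhdsWithin).exists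
  have h3 : ∀ t : ℝ, 0 < t → y + t • (v + s • (z0 - y)) ∉ D := fun t ht h =>
    hs1 (subset_closure ⟨t, ht, h⟩)
  obtain ⟨q, hq, f, hf0, hf, hfq, hlev, hfv⟩ := Norm_seq hL hy h3
  refine ⟨q, hq, f, hf0, hf, hfq, hlev, ?_⟩
  have h4 := Norm_int hz0 hf0 hf
  rw [map_add, map_smul, map_sub, smul_eq_mul] at hfv
  have h5 : 0 < s * (f y - f z0) := mul_pos hs2 (by linarith)
  nlinarith

/-- an exposed point above the level is a common end of two non parallel frontier segments which
reach points below the level -/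
theorem Norm_two {d : ℕ} {D : Set (Fin d → ℝ)} (hL : LocMax d D) {y : Fin d → ℝ}
    (hy : y ∈ D.exposedPoints ℝ) (hfr : y ∈ frontier D) (hlev : tau d D < phi D y) :
    ∃ z1 ∈ frontier D, ∃ z2 ∈ frontier D, segment ℝ y z1 ⊆ frontier D ∧
      segment ℝ y z2 ⊆ frontier D ∧ phi D z1 ≤ tau d D ∧ phi D z2 ≤ tau d D ∧
      LinearIndependent ℝ ![z1 - y, z2 - y] := by
  obtain ⟨hyD, u, hu⟩ := hy
  obtain ⟨z1, hz1, hz1y, hseg1, hlev1⟩ := Seg_B hL hfr hlev
  have hz1D : z1 ∈ D := hL.1.2.1.isClosed.frontier_subset hz1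
  have hu1 : u z1 < u y := by
    rcases lt_or_ge (u z1) (u y) with h | h
    · exact h
    · exact absurd ((hu z1 hz1D).2 h) hz1y
  have hv : y - z1 ∉ closure {w : Fin d → ℝ | ∃ t : ℝ, 0 < t ∧ y + t • w ∈ D} := by
    intro h
    have h1 : closure {w : Fin d → ℝ | ∃ t : ℝ, 0 < t ∧ y + t • w ∈ D} ⊆ {w | u w ≤ 0} := by
      refine closure_minimal ?_ (isClosed_le u.continuous continuous_const)
      rintro w ⟨t, ht, hw⟩
      have h2 := (hu _ hw).1
      rw [map_add, map_smul, smul_eq_mul] at h2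
      have h3 : t * u w ≤ 0 := by linarith
      exact nonpos_of_mul_nonpos_right h3 ht
    have h4 : u (y - z1) ≤ 0 := h1 h
    rw [map_sub] at h4
    linarith
  obtain ⟨z2, hz2, f, hf0, hf, hf2, hlev2, hfv⟩ := Norm_cone hL hyD hv
  have hseg2 := Norm_seg hL.1.1 hyD hz2 hf0 hf hf2
  rw [map_sub] at hfv
  have hz2y : z2 - y ≠ 0 := by
    intro h
    rw [sub_eq_zero] at h
    rw [h] at hlev2
    linarith
  refine ⟨z1, hz1, z2, hseg2 (right_mem_segment ℝ y z2), hseg1, hseg2, hlev1, hlev2, ?_⟩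
  rw [LinearIndependent.pair_iff]
  intro a b hab
  have h1 := congrArg f hab
  simp only [map_add, map_smul, map_sub, map_zero, smul_eq_mul, hf2, sub_self, mul_zero,
    add_zero] at h1
  have ha : a = 0 := by
    rcases mul_eq_zero.1 h1 with h | h
    · exact h
    · linarith
  refine ⟨ha, ?_⟩
  rw [ha, zero_smul, zero_add] at hab
  exact (smul_eq_zero.1 hab).resolve_right hz2y

/-- coordinates of a functional -/
theorem Norm_rep {d : ℕ} (f : StrongDual ℝ (Fin d → ℝ)) (z : Fin d → ℝ) :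
    f z = ∑ i, f (Pi.single i 1) * z i := by
  conv_lhs => rw [← Finset.univ_sum_single z]
  rw [map_sum]
  refine Finset.sum_congr rfl fun i _ => ?_
  have h1 : (Pi.single i (z i) : Fin d → ℝ) = z i • Pi.single i (1 : ℝ) := by
    ext j
    by_cases h : j = i
    · subst h
      simp
    · simp [h]
  rw [h1, map_smul, smul_eq_mul, mul_comm]

/-- the functional with given coordinates -/
theorem Norm_fn {d : ℕ} (a : Fin d → ℝ) :
    ∃ f : StrongDual ℝ (Fin d → ℝ), (∀ z, f z = ∑ i, a i * z i) ∧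
      (fun i => f (Pi.single i 1)) = a := by
  refine ⟨∑ i, a i • ContinuousLinearMap.proj i, ?_, ?_⟩
  · intro z
    rw [_root_.sum_apply]
    refine Finset.sum_congr rfl fun i _ => ?_
    rw [_root_.smul_apply, ContinuousLinearMap.proj_apply, smul_eq_mul]
  · funext j
    rw [_root_.sum_apply]
    simp only [_root_.smul_apply, ContinuousLinearMap.proj_apply, smul_eq_mul]
    rw [Finset.sum_eq_single j]
    · simp
    · intro i _ hij
      simp [hij]
    · simp

/-- the normalised functionals supporting at `y` and at a point below the level -/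
theorem Norm_compact {d : ℕ} {D : Set (Fin d → ℝ)} (hD : IsBody D) {y z0 : Fin d → ℝ}
    (hz0 : z0 ∈ interior D) {g : (Fin d → ℝ) → ℝ} (hg : Continuous g) (c : ℝ) :
    IsCompact {a : Fin d → ℝ | (∀ x ∈ D, ∑ i, a i * x i ≤ ∑ i, a i * y i) ∧
      ∑ i, a i * (z0 i - y i) = -1 ∧ ∃ z ∈ D, ∑ i, a i * z i = ∑ i, a i * y i ∧ g z ≤ c} := by
  obtain ⟨ρ, hρ, hball⟩ := Metric.isOpen_iff.1 isOpen_interior z0 hz0
  have hcl : IsClosed {r : (Fin d → ℝ) × (Fin d → ℝ) |
      (∀ x ∈ D, ∑ i, r.1 i * x i ≤ ∑ i, r.1 i * y i) ∧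
      ∑ i, r.1 i * (z0 i - y i) = -1 ∧ r.2 ∈ D ∧ ∑ i, r.1 i * r.2 i = ∑ i, r.1 i * y i ∧
      g r.2 ≤ c} := by
    have h1 : IsClosed {r : (Fin d → ℝ) × (Fin d → ℝ) |
        ∀ x ∈ D, ∑ i, r.1 i * x i ≤ ∑ i, r.1 i * y i} := by
      have : {r : (Fin d → ℝ) × (Fin d → ℝ) | ∀ x ∈ D, ∑ i, r.1 i * x i ≤ ∑ i, r.1 i * y i} =
          ⋂ x ∈ D, {r : (Fin d → ℝ) × (Fin d → ℝ) | ∑ i, r.1 i * x i ≤ ∑ i, r.1 i * y i} := by
        ext r
        simp
      rw [this]
      exact isClosed_biInter fun x _ => isClosed_le (by fun_prop) (by fun_prop)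
    have h2 : IsClosed {r : (Fin d → ℝ) × (Fin d → ℝ) | ∑ i, r.1 i * (z0 i - y i) = -1} :=
      isClosed_eq (by fun_prop) continuous_const
    have h3 : IsClosed {r : (Fin d → ℝ) × (Fin d → ℝ) | r.2 ∈ D} :=
      hD.2.1.isClosed.preimage continuous_snd
    have h4 : IsClosed {r : (Fin d → ℝ) × (Fin d → ℝ) |
        ∑ i, r.1 i * r.2 i = ∑ i, r.1 i * y i} := isClosed_eq (by fun_prop) (by fun_prop)
    have h5 : IsClosed {r : (Fin d → ℝ) × (Fin d → ℝ) | g r.2 ≤ c} :=
      isClosed_le (hg.comp continuous_snd) continuous_const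
    exact h1.inter (h2.inter (h3.inter (h4.inter h5)))
  have hsub : {r : (Fin d → ℝ) × (Fin d → ℝ) |
      (∀ x ∈ D, ∑ i, r.1 i * x i ≤ ∑ i, r.1 i * y i) ∧
      ∑ i, r.1 i * (z0 i - y i) = -1 ∧ r.2 ∈ D ∧ ∑ i, r.1 i * r.2 i = ∑ i, r.1 i * y i ∧
      g r.2 ≤ c} ⊆ Metric.closedBall (0 : Fin d → ℝ) (2 / ρ) ×ˢ D := by
    rintro ⟨a, z⟩ ⟨h1, h2, h3, -, -⟩
    refine ⟨?_, h3⟩
    rw [mem_closedBall_zero_iff, pi_norm_le_iff_of_nonneg (by positivity)]
    intro j
    have hmem : ∀ s : ℝ, |s| < ρ → z0 + s • (Pi.single j 1 : Fin d → ℝ) ∈ D := by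
      intro s hs
      apply interior_subset
      apply hball
      rw [Metric.mem_ball, dist_eq_norm, add_sub_cancel_left, norm_smul, Real.norm_eq_abs,
        Pi.norm_single, norm_one, mul_one]
      exact hs
    have hval : ∀ s : ℝ, ∑ i, a i * (z0 + s • (Pi.single j 1 : Fin d → ℝ)) i =
        ∑ i, a i * z0 i + s * a j := by
      intro s
      simp only [Pi.add_apply, Pi.smul_apply, smul_eq_mul, mul_add, Finset.sum_add_distrib]
      congr 1
      rw [Finset.sum_eq_single j]
      · simp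
        ring
      · intro i _ hij
        simp [hij]
      · simp
    have h4 : ∑ i, a i * z0 i - ∑ i, a i * y i = -1 := by
      have h5 := h2
      simp only [mul_sub, Finset.sum_sub_distrib] at h5
      exact h5
    have h6 := h1 _ (hmem (ρ / 2) (by rw [abs_of_pos (by positivity)]; linarith))
    have h7 := h1 _ (hmem (-(ρ / 2)) (by rw [abs_neg, abs_of_pos (by positivity)]; linarith))
    rw [hval] at h6 h7
    simp only at h6 h7
    rw [Real.norm_eq_abs, abs_le]
    have e1 : ρ / 2 * a j ≤ 1 := by linarith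
    have e2 : -(ρ / 2) * a j ≤ 1 := by linarith
    constructor
    · rw [neg_le, le_div_iff₀ hρ]
      linarith
    · rw [le_div_iff₀ hρ]
      linarith
  have hc := ((isCompact_closedBall (0 : Fin d → ℝ) (2 / ρ)).prod hD.2.1).of_isClosed_subset
    hcl hsub
  have himg := hc.image continuous_fst
  have heq : {a : Fin d → ℝ | (∀ x ∈ D, ∑ i, a i * x i ≤ ∑ i, a i * y i) ∧
      ∑ i, a i * (z0 i - y i) = -1 ∧ ∃ z ∈ D, ∑ i, a i * z i = ∑ i, a i * y i ∧ g z ≤ c} =
      Prod.fst '' {r : (Fin d → ℝ) × (Fin d → ℝ) |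
      (∀ x ∈ D, ∑ i, r.1 i * x i ≤ ∑ i, r.1 i * y i) ∧
      ∑ i, r.1 i * (z0 i - y i) = -1 ∧ r.2 ∈ D ∧ ∑ i, r.1 i * r.2 i = ∑ i, r.1 i * y i ∧
      g r.2 ≤ c} := by
    ext a
    constructor
    · rintro ⟨h1, h2, z, h3, h4, h5⟩
      exact ⟨(a, z), ⟨h1, h2, h3, h4, h5⟩, rfl⟩
    · rintro ⟨⟨a', z⟩, ⟨h1, h2, h3, h4, h5⟩, rfl⟩
      exact ⟨h1, h2, z, h3, h4, h5⟩
  rw [heq]
  exact himg

/-- every extreme ray of the normal cone at `y` supports the body at a point below the level -/
theorem Norm_ext {d : ℕ} {D : Set (Fin d → ℝ)} (hL : LocMax d D) {y : Fin d → ℝ} (hy : y ∈ D)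
    {n : StrongDual ℝ (Fin d → ℝ)} (hn0 : n ≠ 0) (hn : ∀ x ∈ D, n x ≤ n y)
    (hex : ∀ a b : StrongDual ℝ (Fin d → ℝ), (∀ x ∈ D, a x ≤ a y) → (∀ x ∈ D, b x ≤ b y) →
      a + b = n → ∃ c : ℝ, a = c • n) :
    ∃ z ∈ D, n z = n y ∧ phi D z ≤ tau d D := by
  have hD := hL.1
  obtain ⟨z0, hz0⟩ := hD.2.2
  by_contra hcon
  set P : Set (Fin d → ℝ) := {a : Fin d → ℝ | (∀ x ∈ D, ∑ i, a i * x i ≤ ∑ i, a i * y i) ∧
      ∑ i, a i * (z0 i - y i) = -1 ∧ ∃ z ∈ D, ∑ i, a i * z i = ∑ i, a i * y i ∧
      phi D z ≤ tau d D} with hP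
  have hPc : IsCompact P := Norm_compact hD hz0 (Bi_phi_cont hD.2.1) (tau d D)
  have hκ : 0 < n y - n z0 := sub_pos.2 (Norm_int hz0 hn0 hn)
  set κ := n y - n z0 with hκd
  set a0 : Fin d → ℝ := fun i => κ⁻¹ * n (Pi.single i 1) with ha0
  have hdiff : ∀ a : Fin d → ℝ, ∑ i, a i * (z0 i - y i) = ∑ i, a i * z0 i - ∑ i, a i * y i := by
    intro a
    rw [← Finset.sum_sub_distrib]
    exact Finset.sum_congr rfl fun i _ => by ring
  have ha0v : ∀ z, ∑ i, a0 i * z i = κ⁻¹ * n z := by
    intro z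
    rw [Norm_rep n z, Finset.mul_sum]
    exact Finset.sum_congr rfl fun i _ => by rw [ha0]; ring
  -- `a0` is not in the hull
  have hnot : a0 ∉ convexHull ℝ P := by
    intro hmem
    have hBconv : convexHull ℝ P ⊆ {a : Fin d → ℝ | (∀ x ∈ D, ∑ i, a i * x i ≤ ∑ i, a i * y i) ∧
        ∑ i, a i * (z0 i - y i) = -1} := by
      refine convexHull_min (fun a ha => ⟨ha.1, ha.2.1⟩) ?_
      rintro a ⟨h1, h2⟩ b ⟨h3, h4⟩ s t hs ht hst
      have hsum : ∀ z : Fin d → ℝ, ∑ i, (s • a + t • b) i * z i =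
          s * ∑ i, a i * z i + t * ∑ i, b i * z i := by
        intro z
        rw [Finset.mul_sum, Finset.mul_sum, ← Finset.sum_add_distrib]
        refine Finset.sum_congr rfl fun i _ => ?_
        simp only [Pi.add_apply, Pi.smul_apply, smul_eq_mul]
        ring
      refine ⟨fun x hx => ?_, ?_⟩
      · rw [hsum, hsum]
        have e1 := mul_le_mul_of_nonneg_left (h1 x hx) hs
        have e2 := mul_le_mul_of_nonneg_left (h3 x hx) ht
        linarith
      · have e3 := hsum (fun i => z0 i - y i)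
        rw [e3, h2, h4]
        linarith
    have hext : a0 ∈ (convexHull ℝ P).extremePoints ℝ := by
      refine ⟨hmem, ?_⟩
      rintro x1 hx1 x2 hx2 ⟨s, t, hs, ht, hst, hst2⟩
      obtain ⟨b1, b2⟩ := hBconv hx1
      obtain ⟨b3, b4⟩ := hBconv hx2
      obtain ⟨f1, f1v, f1c⟩ := Norm_fn x1
      obtain ⟨f2, f2v, f2c⟩ := Norm_fn x2
      have hsumn : (κ * s) • f1 + (κ * t) • f2 = n := by
        ext z
        simp only [_root_.add_apply, _root_.smul_apply, smul_eq_mul]
        have e1 := ha0v z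
        rw [← hst2] at e1
        have e2 : ∑ i, (s • x1 + t • x2) i * z i = s * f1 z + t * f2 z := by
          rw [f1v, f2v, Finset.mul_sum, Finset.mul_sum, ← Finset.sum_add_distrib]
          refine Finset.sum_congr rfl fun i _ => ?_
          simp only [Pi.add_apply, Pi.smul_apply, smul_eq_mul]
          ring
        rw [e2] at e1
        have e3 : κ * (κ⁻¹ * n z) = n z := by
          rw [← mul_assoc, mul_inv_cancel₀ hκ.ne', one_mul]
        rw [← e3, ← e1]
        ring
      obtain ⟨c, hc⟩ := hex _ _ (fun x hx => by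
          simp only [_root_.smul_apply, smul_eq_mul]
          rw [f1v, f1v]
          exact mul_le_mul_of_nonneg_left (b1 x hx) (by positivity)) (fun x hx => by
          simp only [_root_.smul_apply, smul_eq_mul]
          rw [f2v, f2v]
          exact mul_le_mul_of_nonneg_left (b3 x hx) (by positivity)) hsumn
      have hev : ∀ z, κ * s * f1 z = c * n z := by
        intro z
        have := congrArg (fun f : StrongDual ℝ (Fin d → ℝ) => f z) hc
        simpa using this
      have e4 : f1 z0 - f1 y = -1 := by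
        rw [f1v, f1v, ← hdiff]
        exact b2
      have e5 : c = s := by
        have e6 := hev z0
        have e7 := hev y
        have e8 : κ * s * (f1 z0 - f1 y) = c * (n z0 - n y) := by
          rw [mul_sub, mul_sub, e6, e7]
        rw [e4] at e8
        have e9 : n z0 - n y = -κ := by rw [hκd]; ring
        rw [e9] at e8
        have : κ * (c - s) = 0 := by linarith
        rcases mul_eq_zero.1 this with h | h
        · exact absurd h hκ.ne'
        · linarith
      funext i
      have e10 := hev (Pi.single i 1)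
      rw [e5] at e10
      have e11 : f1 (Pi.single i 1) = x1 i := congrFun f1c i
      rw [e11] at e10
      rw [ha0]
      show x1 i = κ⁻¹ * n (Pi.single i 1)
      rw [eq_inv_mul_iff_mul_eq₀ hκ.ne']
      have : s * (κ * x1 i - n (Pi.single i 1)) = 0 := by linarith
      rcases mul_eq_zero.1 this with h | h
      · exact absurd h hs.ne'
      · linarith
    obtain ⟨-, -, z, hz, hz1, hz2⟩ := extremePoints_convexHull_subset hext
    apply hcon
    refine ⟨z, hz, ?_, hz2⟩
    rw [ha0v, ha0v] at hz1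
    exact mul_left_cancel₀ (inv_ne_zero hκ.ne') hz1
  obtain ⟨F, u, hF1, hF2⟩ := geometric_hahn_banach_closed_point (convex_convexHull ℝ P)
    (Geo_hull_compact hPc).isClosed hnot
  set v : Fin d → ℝ := fun i => F (Pi.single i 1) + u * (z0 i - y i) with hv
  have hval : ∀ a : Fin d → ℝ, ∑ i, a i * (z0 i - y i) = -1 → ∑ i, a i * v i = F a - u := by
    intro a ha
    have e1 : ∑ i, a i * v i = ∑ i, F (Pi.single i 1) * a i + u * ∑ i, a i * (z0 i - y i) := by
      rw [Finset.mul_sum, ← Finset.sum_add_distrib]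
      refine Finset.sum_congr rfl fun i _ => ?_
      rw [hv]
      ring
    rw [e1, ha, ← Norm_rep F a]
    ring
  have hnv : 0 < n v := by
    have e1 := ha0v v
    have e2 : ∑ i, a0 i * (z0 i - y i) = -1 := by
      rw [hdiff, ha0v, ha0v, ← mul_sub]
      have : n z0 - n y = -κ := by rw [hκd]; ring
      rw [this, mul_neg, inv_mul_cancel₀ hκ.ne']
    rw [hval a0 e2] at e1
    have e3 : 0 < κ⁻¹ * n v := by linarith
    exact (pos_iff_pos_of_mul_pos e3).1 (inv_pos.2 hκ)
  have hout : ∀ s : ℝ, 0 < s → y + s • v ∉ D := by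
    intro s hs h
    have e1 := hn _ h
    rw [map_add, map_smul, smul_eq_mul] at e1
    have := mul_pos hs hnv
    linarith
  obtain ⟨q, hq, f, hf0, hf, hfq, hlev, hfv⟩ := Norm_seq hL hy hout
  have hκ' : 0 < f y - f z0 := sub_pos.2 (Norm_int hz0 hf0 hf)
  set a1 : Fin d → ℝ := fun i => (f y - f z0)⁻¹ * f (Pi.single i 1) with ha1
  have ha1v : ∀ z, ∑ i, a1 i * z i = (f y - f z0)⁻¹ * f z := by
    intro z
    rw [Norm_rep f z, Finset.mul_sum]
    exact Finset.sum_congr rfl fun i _ => by rw [ha1]; ring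
  have e2 : ∑ i, a1 i * (z0 i - y i) = -1 := by
    rw [hdiff, ha1v, ha1v, ← mul_sub]
    have : f z0 - f y = -(f y - f z0) := by ring
    rw [this, mul_neg, inv_mul_cancel₀ hκ'.ne']
  have ha1P : a1 ∈ P := by
    refine ⟨fun x hx => ?_, e2, q, hq, ?_, hlev⟩
    · rw [ha1v, ha1v]
      exact mul_le_mul_of_nonneg_left (hf x hx) (inv_nonneg.2 hκ'.le)
    · rw [ha1v, ha1v, hfq]
  have e3 := hF1 a1 (subset_convexHull ℝ P ha1P)
  have e4 := hval a1 e2
  rw [ha1v] at e4
  have e5 : 0 ≤ (f y - f z0)⁻¹ * f v := mul_nonneg (inv_nonneg.2 hκ'.le) hfv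
  linarith

end Pool.Agent.SYX
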